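import Pool.Agent.Work.MP_653b6e_gt.Defs

/-! The suspension of a space with an involution, and the double dyadic telescope. -/

namespace Pool.Agent.Work.MP_653b6e_gt.Hedge

/-- The relation on `X × [-1, 1]` that collapses `X × {1}` and `X × {-1}` to one point each. -/
def suspSetoid (X : Type) : Setoid (X × Set.Icc (-1 : ℝ) 1) where
  r p q := p.2 = q.2 ∧ (p.1 = q.1 ∨ (p.2 : ℝ) = 1 ∨ (p.2 : ℝ) = -1)
  iseqv :=
    ⟨fun _ => ⟨rfl, Or.inl rfl⟩,
      fun h => ⟨h.1.symm, h.2.imp Eq.symm fun h' => by rwa [← h.1]⟩,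
      fun h h' => ⟨h.1.trans h'.1, h.2.elim
        (fun e => h'.2.imp (fun e' => e.trans e') fun e' => by rwa [h.1]) Or.inr⟩⟩

/-- The suspension of a space, with the quotient topology. -/
def susp (X : TopCat.{0}) : TopCat.{0} := TopCat.of (Quotient (suspSetoid X))

/-- The map of the suspension induced by `(x, s) ↦ (τ x, -s)`. -/
def suspSwap {X : TopCat.{0}} (τ : X → X) : susp X → susp X :=
  Quotient.map (sa := suspSetoid X) (sb := suspSetoid X)
    (fun p => (τ p.1, ⟨-p.2, neg_le_neg p.2.2.2, neg_le.1 p.2.2.1⟩))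
    (fun _ _ h => ⟨Subtype.ext (congrArg (fun s : Set.Icc (-1 : ℝ) 1 => -(s : ℝ)) h.1),
      h.2.imp (congrArg τ) fun h' => h'.symm.imp (fun e => neg_eq_iff_eq_neg.2 e)
        fun e => congrArg Neg.neg e⟩)

/-- The relation on the plane: `(θ, t)` and `(θ', t')` are related when `t = t'` and
`2 ^ ⌊|t|⌋ * (θ - θ')` is an integer. -/
def telSetoid : Setoid (ℝ × ℝ) where
  r p q := p.2 = q.2 ∧ ∃ k : ℤ, 2 ^ ⌊|p.2|⌋₊ * (p.1 - q.1) = k
  iseqv :=
    ⟨fun _ => ⟨rfl, 0, by simp⟩,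
      fun ⟨h, k, hk⟩ => ⟨h.symm, -k, by rw [← h, Int.cast_neg, ← hk]; ring⟩,
      fun ⟨h, k, hk⟩ ⟨h', l, hl⟩ =>
        ⟨h.trans h', k + l, by rw [Int.cast_add, ← hk, ← hl, ← h]; ring⟩⟩

/-- The double telescope: two copies of the mapping telescope of the squaring map of the circle,
glued along the cylinder `|t| < 1`, with the quotient topology. -/
def dblTel : TopCat.{0} := TopCat.of (Quotient telSetoid)

/-- The map of the double telescope induced by `(θ, t) ↦ (θ + 1/2, -t)`. -/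
noncomputable def telSwap : dblTel → dblTel :=
  Quotient.map (sa := telSetoid) (sb := telSetoid) (fun p => (p.1 + 1 / 2, -p.2))
    (fun _ _ ⟨h, k, hk⟩ => ⟨congrArg Neg.neg h, k, by
      rw [← hk, abs_neg, add_sub_add_right_eq_sub]⟩)

end Pool.Agent.Work.MP_653b6e_gt.Hedge
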