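import Pool.Agent.Work.MP_653b6e_gt.Hedge.Defs
import Pool.Agent.Work.MP_735653_gt.Subd
import Mathlib

-- merged part: Pool.Agent.Work.MP_653b6e_gt.Hedge.Geom
section
/-! Elementary topology of the suspension and of the double telescope. -/

namespace Pool.Agent.Work.MP_653b6e_gt.Hedge

open Set Topology

section Susp

/-- The underlying type of the suspension. -/
abbrev SP (X : Type) : Type := Quotient (suspSetoid X)

variable {X : Type}

theorem neg_one_le_one' : (-1 : ℝ) ≤ 1 := by norm_num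

/-- The point of the suspension over `x` at height `r`. -/
noncomputable def smk (x : X) (r : ℝ) : SP X :=
  Quotient.mk (suspSetoid X) (x, projIcc (-1) 1 neg_one_le_one' r)

/-- The height. -/
def hh : SP X → ℝ :=
  Quotient.lift (s := suspSetoid X) (fun p => (p.2 : ℝ)) fun _ _ h => congrArg Subtype.val h.1

/-- The projection to the base. -/
noncomputable def sx (y : SP X) : X := y.out.1

theorem hh_mk (p : X × Icc (-1 : ℝ) 1) : hh (Quotient.mk (suspSetoid X) p) = p.2 := rfl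

theorem hh_mem (y : SP X) : hh y ∈ Icc (-1 : ℝ) 1 := by
  obtain ⟨p, rfl⟩ := Quotient.exists_rep y
  exact p.2.2

theorem smk_coe (p : X × Icc (-1 : ℝ) 1) : smk p.1 p.2 = Quotient.mk (suspSetoid X) p := by
  rw [smk, projIcc_val]

theorem smk_sx (y : SP X) : smk (sx y) (hh y) = y := by
  have h : hh y = y.out.2 := by rw [← hh_mk, Quotient.out_eq]
  rw [h, sx, smk_coe, Quotient.out_eq]

theorem hh_smk (x : X) {r : ℝ} (hr : r ∈ Icc (-1 : ℝ) 1) : hh (smk x r) = r := by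
  rw [smk, hh_mk, projIcc_of_mem _ hr]

theorem sx_mk (p : X × Icc (-1 : ℝ) 1) :
    sx (Quotient.mk (suspSetoid X) p) = p.1 ∨ (p.2 : ℝ) = 1 ∨ (p.2 : ℝ) = -1 := by
  have h := Quotient.mk_out (s := suspSetoid X) p
  exact h.2.imp id fun h' => by rwa [← h.1]

theorem sx_smk (x : X) {r : ℝ} (hr : |r| < 1) : sx (smk x r) = x := by
  have hr' := abs_lt.1 hr
  have h := sx_mk (x, projIcc (-1) 1 neg_one_le_one' r)
  rw [projIcc_of_mem _ ⟨hr'.1.le, hr'.2.le⟩] at h
  rw [smk, projIcc_of_mem _ ⟨hr'.1.le, hr'.2.le⟩]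
  rcases h with h | h | h
  · exact h
  · exact absurd h hr'.2.ne
  · exact absurd h hr'.1.ne'

theorem smk_pole (x x' : X) {r : ℝ} (hr : r = 1 ∨ r = -1) : smk x r = smk x' r := by
  have hm : r ∈ Icc (-1 : ℝ) 1 := by rcases hr with rfl | rfl <;> norm_num
  refine Quotient.sound (s := suspSetoid X) ⟨rfl, Or.inr ?_⟩
  rwa [projIcc_of_mem _ hm]

variable [TopologicalSpace X]

theorem continuous_smk : Continuous fun p : X × ℝ => smk p.1 p.2 :=
  continuous_quotient_mk'.comp (continuous_fst.prodMk (continuous_projIcc.comp continuous_snd))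

theorem continuous_hh : Continuous (hh : SP X → ℝ) :=
  Continuous.quotient_lift (continuous_subtype_val.comp continuous_snd) _

theorem isQuotientMap_spmk : IsQuotientMap (Quotient.mk (suspSetoid X)) :=
  isQuotientMap_quotient_mk'

variable (X) in
/-- The suspension without its two poles. -/
def Wd : Set (SP X) := {y | |hh y| < 1}

theorem isOpen_Wd : IsOpen (Wd X) := isOpen_lt continuous_hh.abs continuous_const

theorem continuousOn_sx : ContinuousOn sx (Wd X) := by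
  rw [isQuotientMap_spmk.continuousOn_isOpen_iff isOpen_Wd]
  refine continuous_fst.continuousOn.congr fun p hp => ?_
  have h := sx_smk p.1 (r := p.2) hp
  rwa [smk_coe] at h

variable (X) in
/-- The suspension without one pole. -/
def Cn (e : ℝ) : Set (SP X) := {y | hh y ≠ -e}

theorem isOpen_Cn (e : ℝ) : IsOpen (Cn X e) := isOpen_ne_fun continuous_hh continuous_const

theorem contractible_Cn [Nonempty X] {e : ℝ} (he : e = 1 ∨ e = -1) :
    ContractibleSpace (Cn X e) := by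
  obtain ⟨x0⟩ : Nonempty X := inferInstance
  have hm : ∀ (r : unitInterval) (y : SP X), (1 - r) * hh y + r * e ∈ Icc (-1 : ℝ) 1 := by
    intro r y
    have h1 := hh_mem y
    have h2 := r.2
    rcases he with rfl | rfl <;> constructor <;> nlinarith [h1.1, h1.2, h2.1, h2.2]
  have hn : ∀ (r : unitInterval) (y : Cn X e), smk (sx y.1) ((1 - r) * hh y.1 + r * e) ∈ Cn X e := by
    intro r y h
    rw [hh_smk _ (hm r y)] at h
    have h1 := hh_mem y.1
    have h2 := r.2
    have h3 : hh y.1 ≠ -e := y.2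
    rcases he with rfl | rfl
    · have h4 : -1 < hh y.1 := lt_of_le_of_ne h1.1 h3.symm
      have h5 := mul_nonneg (sub_nonneg.2 h2.2) (sub_nonneg.2 h4.le)
      have h6 : (r : ℝ) = 0 := by linarith only [h, h5, h2.1]
      rw [h6] at h
      linarith
    · have h4 : hh y.1 < 1 := lt_of_le_of_ne h1.2 (by simpa using h3)
      have h5 := mul_nonneg (sub_nonneg.2 h2.2) (sub_nonneg.2 h4.le)
      have h6 : (r : ℝ) = 0 := by linarith only [h, h5, h2.1]
      rw [h6] at h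
      linarith
  have he' : e ∈ Icc (-1 : ℝ) 1 := by rcases he with rfl | rfl <;> norm_num
  have hp : smk x0 e ∈ Cn X e := by
    intro h
    rw [hh_smk _ he'] at h
    rcases he with rfl | rfl <;> norm_num at h
  have hc : Continuous fun q : unitInterval × Cn X e =>
      smk (sx q.2.1) ((1 - q.1) * hh q.2.1 + q.1 * e) := by
    refine (isQuotientMap_spmk.restrictPreimage_isOpen (isOpen_Cn e)).continuous_lift_prod_right ?_
    have h1 : Continuous fun q : unitInterval × (Quotient.mk (suspSetoid X) ⁻¹' Cn X e) =>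
        smk q.2.1.1 ((1 - q.1) * q.2.1.2 + q.1 * e) :=
      continuous_smk.comp (f := fun q : unitInterval × (Quotient.mk (suspSetoid X) ⁻¹' Cn X e) =>
        (q.2.1.1, (1 - (q.1 : ℝ)) * q.2.1.2 + q.1 * e)) (by fun_prop)
    refine h1.congr fun q => ?_
    change _ = smk (sx (Quotient.mk (suspSetoid X) q.2.1)) ((1 - q.1) * q.2.1.2 + q.1 * e)
    have h2 : (q.2.1.2 : ℝ) ≠ -e := q.2.2
    rcases sx_mk q.2.1 with h | h | h
    · rw [h]
    · rcases he with rfl | rfl
      · exact smk_pole _ _ (Or.inl (by rw [h]; ring))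
      · exact absurd h (by simpa using h2)
    · rcases he with rfl | rfl
      · exact absurd h h2
      · exact smk_pole _ _ (Or.inr (by rw [h]; ring))
  refine (contractible_iff_id_nullhomotopic _).2 ⟨⟨smk x0 e, hp⟩, ⟨⟨⟨_, hc.subtype_mk
    fun q => hn q.1 q.2⟩, fun y => Subtype.ext ?_, fun y => Subtype.ext ?_⟩⟩⟩
  · simpa using smk_sx y.1
  · simpa using smk_pole _ _ he

end Susp

section Swap

variable {X : TopCat.{0}} (τ : X → X)

theorem hh_swap (y : SP X) : hh (suspSwap τ y) = -hh y := by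
  obtain ⟨p, rfl⟩ := Quotient.exists_rep y
  rfl

theorem sx_swap {y : SP X} (hy : y ∈ Wd X) : sx (suspSwap τ y) = τ (sx y) := by
  obtain ⟨p, rfl⟩ := Quotient.exists_rep y
  have h : |(p.2 : ℝ)| < 1 := hy
  have h1 := sx_smk p.1 h
  have h2 := sx_smk (τ p.1) (r := -p.2) (by rwa [abs_neg])
  rw [smk_coe] at h1
  rw [h1, ← h2]
  exact congrArg sx (smk_coe (τ p.1, ⟨-p.2, neg_le_neg p.2.2.2, neg_le.1 p.2.2.1⟩)).symm

end Swap

section Tel

/-- The underlying type of the double telescope. -/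
abbrev TT : Type := Quotient telSetoid

/-- The point with angle `θ` at level `t`. -/
def tmk (θ t : ℝ) : TT := Quotient.mk telSetoid (θ, t)

/-- The level. -/
def tt : TT → ℝ := Quotient.lift (s := telSetoid) (fun p => p.2) fun _ _ h => h.1

/-- A representative angle. -/
noncomputable def th (x : TT) : ℝ := x.out.1

theorem tt_tmk (θ t : ℝ) : tt (tmk θ t) = t := rfl

theorem tmk_th (x : TT) : tmk (th x) (tt x) = x := by
  have h : tt x = x.out.2 := by rw [← tt_tmk x.out.1 x.out.2, tmk, Quotient.out_eq]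
  rw [h, th, tmk, Quotient.out_eq]

theorem tmk_eq_iff {θ t θ' t' : ℝ} :
    tmk θ t = tmk θ' t' ↔ t = t' ∧ ∃ k : ℤ, 2 ^ ⌊|t|⌋₊ * (θ - θ') = k :=
  Quotient.eq (r := telSetoid)

theorem int_mono {m n : ℕ} (h : m ≤ n) {d : ℝ} (hd : ∃ k : ℤ, 2 ^ m * d = k) :
    ∃ k : ℤ, 2 ^ n * d = k := by
  obtain ⟨k, hk⟩ := hd
  obtain ⟨j, rfl⟩ := Nat.exists_eq_add_of_le h
  exact ⟨2 ^ j * k, by push_cast; rw [← hk]; ring⟩

theorem tmk_eq_of {θ θ' t : ℝ} {m : ℕ} (hm : m ≤ ⌊|t|⌋₊) (h : ∃ k : ℤ, 2 ^ m * (θ - θ') = k) :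
    tmk θ t = tmk θ' t := tmk_eq_iff.2 ⟨rfl, int_mono hm h⟩

theorem continuous_tmk : Continuous fun p : ℝ × ℝ => tmk p.1 p.2 := continuous_quotient_mk'

theorem continuous_tt : Continuous tt := Continuous.quotient_lift continuous_snd _

theorem isQuotientMap_tmk : IsQuotientMap (Quotient.mk telSetoid) := isQuotientMap_quotient_mk'

/-- The angle multiplied by `2 ^ N`, modulo one. -/
noncomputable def ang (N : ℕ) (x : TT) : UnitAddCircle := ((2 ^ N * th x : ℝ) : UnitAddCircle)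

theorem coe_eq_iff_int {a b : ℝ} :
    (a : UnitAddCircle) = (b : UnitAddCircle) ↔ ∃ k : ℤ, a - b = k := by
  rw [← sub_eq_zero, ← AddCircle.coe_sub, AddCircle.coe_eq_zero_iff]
  simp [eq_comm]

theorem ang_tmk {N : ℕ} (θ : ℝ) {t : ℝ} (ht : |t| < N + 1) :
    ang N (tmk θ t) = ((2 ^ N * θ : ℝ) : UnitAddCircle) := by
  have h := (tmk_eq_iff.1 (tmk_th (tmk θ t))).2
  rw [tt_tmk] at h
  have hN : ⌊|t|⌋₊ ≤ N := Nat.lt_succ_iff.1 ((Nat.floor_lt (abs_nonneg t)).2 (by exact_mod_cast ht))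
  rw [ang, coe_eq_iff_int, ← mul_sub]
  exact int_mono hN h

theorem continuousOn_ang (N : ℕ) : ContinuousOn (ang N) {x | |tt x| < N + 1} := by
  rw [isQuotientMap_tmk.continuousOn_isOpen_iff (isOpen_lt continuous_tt.abs continuous_const)]
  have h : Continuous fun p : ℝ × ℝ => ((2 ^ N * p.1 : ℝ) : UnitAddCircle) :=
    (AddCircle.continuous_mk' 1).comp (by fun_prop)
  exact h.continuousOn.congr fun p hp => ang_tmk p.1 hp

/-- The level after pushing outwards. -/
noncomputable def lev (e t a : ℝ) : ℝ := e * max (max (e * t) a) (-3 * (e * t) - 2)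

theorem floor_le_lev {e : ℝ} (he : e = 1 ∨ e = -1) (t a : ℝ) : ⌊|t|⌋₊ ≤ ⌊|lev e t a|⌋₊ := by
  have h1 : |lev e t a| = |max (max (e * t) a) (-3 * (e * t) - 2)| := by
    rcases he with rfl | rfl <;> simp [lev]
  have h2 : |t| = |e * t| := by rcases he with rfl | rfl <;> simp
  rw [h1, h2]
  generalize e * t = u
  by_cases h : |u| < 1
  · rw [Nat.floor_eq_zero.2 h]
    exact Nat.zero_le _
  · refine Nat.floor_mono (le_trans ?_ (le_abs_self _))
    rcases le_abs.1 (not_lt.1 h) with h' | h'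
    · rw [abs_of_nonneg (by linarith)]
      exact (le_max_left _ _).trans (le_max_left _ _)
    · rw [abs_of_nonpos (by linarith)]
      exact le_trans (by linarith) (le_max_right _ _)

/-- Pushing outwards. -/
noncomputable def push (e : ℝ) (q : TT × ℝ) : TT := tmk (th q.1) (lev e (tt q.1) q.2)

theorem push_tmk {e : ℝ} (he : e = 1 ∨ e = -1) (θ t a : ℝ) :
    push e (tmk θ t, a) = tmk θ (lev e t a) :=
  tmk_eq_of (floor_le_lev he t a) (tmk_eq_iff.1 (tmk_th (tmk θ t))).2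

theorem continuous_lev (e : ℝ) : Continuous fun q : ℝ × ℝ => lev e q.1 q.2 := by
  unfold lev
  fun_prop

theorem continuous_push {e : ℝ} (he : e = 1 ∨ e = -1) : Continuous (push e) := by
  refine isQuotientMap_tmk.continuous_lift_prod_left ?_
  have h : Continuous fun q : (ℝ × ℝ) × ℝ => tmk q.1.1 (lev e q.1.2 q.2) :=
    continuous_tmk.comp (f := fun q : (ℝ × ℝ) × ℝ => (q.1.1, lev e q.1.2 q.2))
      (continuous_fst.fst.prodMk ((continuous_lev e).comp
        (f := fun q : (ℝ × ℝ) × ℝ => (q.1.2, q.2)) (by fun_prop)))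
  exact h.congr fun q => (push_tmk he q.1.1 q.1.2 q.2).symm

theorem telSwap_tmk (θ t : ℝ) : telSwap (tmk θ t) = tmk (θ + 1 / 2) (-t) := rfl

theorem tt_swap (x : TT) : tt (telSwap x) = -tt x := by
  rw [← tmk_th x, telSwap_tmk, tt_tmk, tt_tmk]

theorem continuous_telSwap : Continuous telSwap :=
  Continuous.quotient_map' (s := telSetoid) (t := telSetoid) (by fun_prop) _

theorem telSwap_telSwap (x : TT) : telSwap (telSwap x) = x := by
  rw [← tmk_th x, telSwap_tmk, telSwap_tmk, neg_neg]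
  exact tmk_eq_of (Nat.zero_le _) ⟨1, by norm_num; ring⟩

theorem telSwap_ne (x : TT) : telSwap x ≠ x := by
  rw [← tmk_th x, telSwap_tmk]
  intro h
  obtain ⟨h1, k, hk⟩ := tmk_eq_iff.1 h
  have h2 : tt x = 0 := by linarith
  rw [h2, neg_zero, abs_zero, Nat.floor_zero, pow_zero, one_mul, add_sub_cancel_left] at hk
  have h3 : (1 : ℝ) = 2 * k := by linarith
  have h4 : (1 : ℤ) = 2 * k := by exact_mod_cast h3
  omega

end Tel

end Pool.Agent.Work.MP_653b6e_gt.Hedge
end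

-- merged part: Pool.Agent.Work.MP_653b6e_gt.Hedge.Chains2
section
/-! Singular chains modulo two: small chains and a Mayer-Vietoris argument. -/

namespace Pool.Agent.Work.MP_653b6e_gt.Hedge

open Finsupp Pool.Agent.Work.MP_735653_gt Pool.Agent.Work.MP_735653_gt.SingG

variable {Y : Type} [TopologicalSpace Y]

/-- Reduction of integral chains modulo two. -/
noncomputable def red : SC Y →+ GSC (ZMod 2) Y :=
  Finsupp.mapRange.addMonoidHom (Int.castAddHom (ZMod 2))

theorem red_apply (x : SC Y) (s : Sx Y) : red x s = (x s : ZMod 2) := rfl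

theorem red_single (s : Sx Y) (c : ℤ) : red (single s c) = single s (c : ZMod 2) := by
  simp [red]

theorem red_smul (c : ℤ) (x : SC Y) : red (c • x) = (c : ZMod 2) • red x := by
  rw [map_zsmul, Int.cast_smul_eq_zsmul]

theorem red_sbd (x : SC Y) : red (sbd Y x) = gsbd (ZMod 2) Y (red x) := by
  induction x using Finsupp.induction_linear with
  | zero => simp
  | add a b ha hb => simp [ha, hb]
  | single s c =>
    rw [sbd_single, red_smul, red_single, gsbd, linearCombination_single]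
    congr 1
    obtain ⟨q, s⟩ := s
    cases q with
    | zero => simp [sbd1, gsbd1]
    | succ q =>
      rw [sbd1, gsbd1, map_sum]
      refine Finset.sum_congr rfl fun i _ => ?_
      rw [red_smul, red_single]
      simp

theorem red_mem {S : Set (Sx Y)} {x : SC Y} (hx : x ∈ supported ℤ ℤ S) :
    red x ∈ supported (ZMod 2) (ZMod 2) S := by
  rw [mem_supported'] at hx ⊢
  intro s hs
  rw [red_apply, hx s hs, Int.cast_zero]

theorem exists_lift {S : Set (Sx Y)} {z : GSC (ZMod 2) Y}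
    (hz : z ∈ supported (ZMod 2) (ZMod 2) S) : ∃ x ∈ supported ℤ ℤ S, red x = z := by
  refine ⟨mapRange (fun a : ZMod 2 => (a.val : ℤ)) (by simp) z, ?_, ?_⟩
  · rw [mem_supported'] at hz ⊢
    intro s hs
    simp [hz s hs]
  · ext s
    simp [red_apply]

theorem red_two (y : SC Y) : red ((2 : ℤ) • y) = 0 := by
  rw [red_smul, show ((2 : ℤ) : ZMod 2) = 0 from rfl, zero_smul]

theorem exists_half {S : Set (Sx Y)} {x : SC Y} (hx : x ∈ supported ℤ ℤ S) (h : red x = 0) :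
    ∃ y ∈ supported ℤ ℤ S, x = (2 : ℤ) • y := by
  refine ⟨mapRange (fun a : ℤ => a / 2) (by simp) x, ?_, ?_⟩
  · rw [mem_supported'] at hx ⊢
    intro s hs
    simp [hx s hs]
  · ext s
    have h1 : (x s : ZMod 2) = 0 := by rw [← red_apply, h]; rfl
    have h2 : ((2 : ℕ) : ℤ) ∣ x s := (ZMod.intCast_zmod_eq_zero_iff_dvd _ _).1 h1
    simp only [Finsupp.smul_apply, mapRange_apply, smul_eq_mul]
    omega

theorem sbd_one (σ : C(stdSimplex ℝ (Fin 2), Y)) : sbd Y (single ⟨1, σ⟩ 1) =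
    single (pt (σ (stdSimplex.vertex 1))) 1 - single (pt (σ (stdSimplex.vertex 0))) 1 := by
  have h : ∀ i : Fin 2, (⟨0, face (q := 0) σ i⟩ : Sx Y) =
      pt (σ (stdSimplex.vertex (i.succAbove 0))) := fun i => by
    rw [eq_pt]
    congr 1
    change σ (stdSimplex.map i.succAbove (stdSimplex.vertex 0)) = _
    rw [stdSimplex.map_vertex]
  rw [sbd_single, one_smul]
  change ∑ i : Fin 2, (-1 : ℤ) ^ (i : ℕ) • single (⟨0, face (q := 0) σ i⟩ : Sx Y) (1 : ℤ) = _
  rw [Fin.sum_univ_two, h, h]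
  simp [sub_eq_add_neg]

theorem gsbd_one (σ : C(stdSimplex ℝ (Fin 2), Y)) : gsbd (ZMod 2) Y (single ⟨1, σ⟩ 1) =
    single (pt (σ (stdSimplex.vertex 1))) 1 - single (pt (σ (stdSimplex.vertex 0))) 1 := by
  have h := congrArg red (sbd_one σ)
  rwa [red_sbd, map_sub, red_single, red_single, red_single, Int.cast_one] at h

theorem acyclic_two (U : Set Y) [ContractibleSpace U] (q : ℕ) {z : GSC (ZMod 2) Y}
    (hz : z ∈ GSCq (ZMod 2) U (q + 1)) (h0 : gsbd (ZMod 2) Y z = 0) :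
    ∃ w ∈ GSCq (ZMod 2) U (q + 2), gsbd (ZMod 2) Y w = z := by
  obtain ⟨x, hx, rfl⟩ := exists_lift hz
  obtain ⟨y, hy, hxy⟩ := exists_half (MP_735653_gt.sbd_mem U q hx) (by rw [red_sbd, h0])
  obtain ⟨y', hy', hyy⟩ : ∃ y' ∈ SCq U (q + 1), sbd Y y' = y := by
    cases q with
    | zero =>
      refine acyclic_zero U hy ?_
      have h1 := aug_sbd x
      rw [hxy, map_smul, smul_eq_mul] at h1
      omega
    | succ q =>
      refine MP_735653_gt.acyclic U q hy ?_
      have h1 := MP_735653_gt.sbd_sbd x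
      rw [hxy, map_smul] at h1
      exact (smul_eq_zero.1 h1).resolve_left two_ne_zero
  obtain ⟨w, hw, hww⟩ := MP_735653_gt.acyclic U q (x := x - (2 : ℤ) • y')
    (Submodule.sub_mem _ hx (Submodule.smul_mem _ _ hy'))
    (by rw [map_sub, map_smul, hyy, hxy, sub_self])
  exact ⟨red w, red_mem hw, by rw [← red_sbd, hww, map_sub, red_two, sub_zero]⟩

theorem exists_small {ι : Type} (U : ι → Set Y) (hU : ∀ i, IsOpen (U i)) (A : Set Y)
    (hA : ∀ y ∈ A, ∃ i, y ∈ U i) (q : ℕ) {z : GSC (ZMod 2) Y} (hz : z ∈ GSCq (ZMod 2) A q)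
    (h0 : gsbd (ZMod 2) Y z = 0) :
    ∃ z' ∈ supported (ZMod 2) (ZMod 2) {s : Sx Y | s.1 = q ∧ ∃ i, Set.range s.2 ⊆ U i},
      ∃ w ∈ GSCq (ZMod 2) A (q + 1), z = z' + gsbd (ZMod 2) Y w := by
  obtain ⟨Sd, T, h1, h2, h3, h4⟩ := exists_subdiv Y
  obtain ⟨x, hx, rfl⟩ := exists_lift hz
  obtain ⟨y, -, hy⟩ := exists_half (S := Set.univ) (x := sbd Y x) (by simp) (by rw [red_sbd, h0])
  have hsm : ∀ N, ∀ a ∈ Small U q, (Sd ^ N) a ∈ Small U q := by
    intro N
    induction N with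
    | zero => exact fun a ha => ha
    | succ N ih =>
      intro a ha
      rw [pow_succ', Module.End.mul_apply]
      exact map_small U Sd q q (fun i b hb => (h3 _ q b hb).1) (ih a ha)
  obtain ⟨N, hN⟩ : ∃ N, (Sd ^ N) x ∈ Small U q := by
    let S : Submodule ℤ (SC Y) :=
      { carrier := {a | ∃ N, (Sd ^ N) a ∈ Small U q}
        add_mem' := by
          rintro a b ⟨N, ha⟩ ⟨M, hb⟩
          refine ⟨N + M, ?_⟩
          rw [map_add]
          refine Submodule.add_mem _ ?_ ?_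
          · rw [add_comm, pow_add, Module.End.mul_apply]
            exact hsm M _ ha
          · rw [pow_add, Module.End.mul_apply]
            exact hsm N _ hb
        zero_mem' := ⟨0, by simp⟩
        smul_mem' := by
          rintro c a ⟨N, ha⟩
          exact ⟨N, by rw [map_smul]; exact Submodule.smul_mem _ _ ha⟩ }
    refine MP_735653_gt.map_supported_cmp S LinearMap.id ?_ hx
    rintro s ⟨rfl, hs⟩
    exact h4 ι U hU s fun t => hA _ (hs ⟨t, rfl⟩)
  have key : ∀ N, (Sd ^ N) x ∈ SCq A q ∧ sbd Y ((Sd ^ N) x) = (2 : ℤ) • (Sd ^ N) y ∧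
      ∃ w ∈ SCq A (q + 1), red x = red ((Sd ^ N) x) + gsbd (ZMod 2) Y (red w) := by
    intro N
    induction N with
    | zero => exact ⟨hx, hy, 0, zero_mem _, by simp⟩
    | succ N ih =>
      obtain ⟨a1, a2, w, hw, a3⟩ := ih
      rw [pow_succ', Module.End.mul_apply, Module.End.mul_apply]
      refine ⟨(h3 A q _ a1).1, by rw [h1, a2, map_smul], w + T ((Sd ^ N) x),
        Submodule.add_mem _ hw (h3 A q _ a1).2, ?_⟩
      have a4 := congrArg red (h2 ((Sd ^ N) x))
      rw [a2, map_smul, map_add, red_two, add_zero, red_sbd, map_sub] at a4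
      rw [map_add, map_add, a4, a3]
      abel
  obtain ⟨-, -, w, hw, h5⟩ := key N
  exact ⟨_, red_mem hN, red w, red_mem hw, h5⟩

theorem gscq_mono {U V : Set Y} (h : U ⊆ V) (q : ℕ) : GSCq (ZMod 2) U q ≤ GSCq (ZMod 2) V q :=
  supported_mono fun _ hs => ⟨hs.1, hs.2.trans h⟩

theorem mayer_vietoris (U V : Set Y) (hU : IsOpen U) (hV : IsOpen V) (hUV : ∀ y, y ∈ U ∨ y ∈ V)
    [ContractibleSpace U] [ContractibleSpace V] (q : ℕ)
    (hW : ∀ a ∈ GSCq (ZMod 2) U (q + 1), gsbd (ZMod 2) Y a ∈ GSCq (ZMod 2) (U ∩ V) q →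
      ∃ p ∈ GSCq (ZMod 2) (U ∩ V) (q + 1), gsbd (ZMod 2) Y p = gsbd (ZMod 2) Y a)
    {z : GSC (ZMod 2) Y} (hz : z ∈ GSCq (ZMod 2) Set.univ (q + 1)) (h0 : gsbd (ZMod 2) Y z = 0) :
    ∃ w ∈ GSCq (ZMod 2) Set.univ (q + 2), gsbd (ZMod 2) Y w = z := by
  obtain ⟨z', hz', w, hw, rfl⟩ := exists_small (fun b : Bool => cond b U V)
    (fun b => by cases b <;> assumption) Set.univ
    (fun y _ => (hUV y).elim (fun h => ⟨true, h⟩) fun h => ⟨false, h⟩) (q + 1) hz h0
  have h1 : z' ∈ GSCq (ZMod 2) U (q + 1) ⊔ GSCq (ZMod 2) V (q + 1) := by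
    refine SingG.map_supported_cmp _ LinearMap.id ?_ hz'
    rintro s ⟨hs, _ | _, hr⟩
    · exact Submodule.mem_sup_right (single_mem_supported _ _ ⟨hs, hr⟩)
    · exact Submodule.mem_sup_left (single_mem_supported _ _ ⟨hs, hr⟩)
  obtain ⟨a, ha, b, hb, rfl⟩ := Submodule.mem_sup.1 h1
  rw [map_add, SingG.sbd_sbd, add_zero, map_add, add_eq_zero_iff_eq_neg] at h0
  have h2 : gsbd (ZMod 2) Y a ∈ GSCq (ZMod 2) (U ∩ V) q := by
    have h3 := SingG.sbd_mem U q ha
    have h5 := SingG.sbd_mem V q hb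
    have h4 := Submodule.neg_mem _ h5
    rw [← h0] at h4
    rw [GSCq, mem_supported] at h3 h4 ⊢
    exact fun s hs => ⟨(h3 hs).1, Set.subset_inter (h3 hs).2 (h4 hs).2⟩
  obtain ⟨p, hp, hpa⟩ := hW a ha h2
  obtain ⟨w1, hw1, e1⟩ := acyclic_two U q (z := a - p)
    (Submodule.sub_mem _ ha (gscq_mono Set.inter_subset_left _ hp)) (by rw [map_sub, hpa, sub_self])
  obtain ⟨w2, hw2, e2⟩ := acyclic_two V q (z := b + p)
    (Submodule.add_mem _ hb (gscq_mono Set.inter_subset_right _ hp))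
    (by rw [map_add, hpa, h0, add_neg_cancel])
  refine ⟨w1 + w2 + w, Submodule.add_mem _ (Submodule.add_mem _
    (gscq_mono (Set.subset_univ _) _ hw1) (gscq_mono (Set.subset_univ _) _ hw2)) hw, ?_⟩
  rw [map_add, map_add, e1, e2]
  abel

theorem bounds_zero (U W : Set Y) (hW : IsPathConnected W) {a : GSC (ZMod 2) Y}
    (ha : a ∈ GSCq (ZMod 2) U 1) (h : gsbd (ZMod 2) Y a ∈ GSCq (ZMod 2) W 0) :
    ∃ p ∈ GSCq (ZMod 2) W 1, gsbd (ZMod 2) Y p = gsbd (ZMod 2) Y a := by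
  have := isPathConnected_iff_pathConnectedSpace.1 hW
  obtain ⟨o⟩ : Nonempty W := inferInstance
  let l : GSC (ZMod 2) Y →ₗ[ZMod 2] ZMod 2 := linearCombination (ZMod 2) fun _ => 1
  have h1 : l (gsbd (ZMod 2) Y a) = 0 := by
    refine (Submodule.mem_bot (ZMod 2)).1
      (SingG.map_supported_cmp ⊥ (l ∘ₗ gsbd (ZMod 2) Y) ?_ ha)
    rintro ⟨q, s⟩ ⟨rfl, -⟩
    rw [LinearMap.comp_apply, gsbd_one]
    simp [l]
  have h2 := SingG.map_supported_cmp ((GSCq (ZMod 2) W 1).map (gsbd (ZMod 2) Y))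
    (LinearMap.id - l.smulRight (single (pt (o : Y)) 1)) (fun s hs => by
      obtain ⟨q, s⟩ := s
      obtain ⟨rfl, hs⟩ := hs
      obtain ⟨y, hy, hb⟩ := path_bd W
        (PathConnectedSpace.joined o ⟨s (stdSimplex.vertex 0), hs ⟨_, rfl⟩⟩)
      refine ⟨red y, red_mem hy, ?_⟩
      rw [← red_sbd, hb, map_sub, red_single, red_single, ← eq_pt]
      simp [l]) h
  rw [LinearMap.sub_apply, LinearMap.smulRight_apply, h1, zero_smul, sub_zero] at h2
  exact h2

open CategoryTheory Limits AlgebraicTopology in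
theorem isZero_of_exact (n : ℕ)
    (h : ∀ z ∈ GSCq (ZMod 2) (Set.univ : Set Y) (n + 1), gsbd (ZMod 2) Y z = 0 →
      ∃ w ∈ GSCq (ZMod 2) Set.univ (n + 2), gsbd (ZMod 2) Y w = z) :
    IsZero (((singularHomologyFunctor (ModuleCat.{0} (ZMod 2)) (n + 1)).obj
      (ModuleCat.of (ZMod 2) (ZMod 2))).obj (TopCat.of Y)) := by
  have h1 : (CXCmp (ZMod 2) Y).ExactAt (n + 1) := by
    rw [HomologicalComplex.exactAt_iff' _ (n + 2) (n + 1) n (by simp) (by simp),
      ShortComplex.moduleCat_exact_iff]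
    intro c hc
    have hc' : ((CXCmp (ZMod 2) Y).d (n + 1) n).hom c = 0 := hc
    obtain ⟨w, hw, e⟩ := h (phiCmp (ZMod 2) Y (n + 1) c)
      (by rw [← range_phiCmp]; exact ⟨c, rfl⟩) (by rw [sbd_phiCmp, hc', map_zero])
    rw [← range_phiCmp] at hw
    obtain ⟨c', rfl⟩ := hw
    rw [sbd_phiCmp] at e
    exact ⟨c', phiCmp_injective _ e⟩
  exact (HomologicalComplex.exactAt_iff_isZero_homology _ _).1 h1

end Pool.Agent.Work.MP_653b6e_gt.Hedge
end

-- merged part: Pool.Agent.Work.MP_653b6e_gt.Hedge.HOne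
section
/-! The first homology modulo two of the suspension without its poles vanishes. -/

namespace Pool.Agent.Work.MP_653b6e_gt.Hedge

open Finsupp Set Pool.Agent.Work.MP_735653_gt Pool.Agent.Work.MP_735653_gt.SingG

/-- The standard segment. -/
abbrev D1 : Type := stdSimplex ℝ (Fin 2)

/-- The first end point. -/
noncomputable abbrev v0 : D1 := stdSimplex.vertex 0

/-- The second end point. -/
noncomputable abbrev v1 : D1 := stdSimplex.vertex 1

/-- The chain of a path. -/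
noncomputable def ch {E : Type} [TopologicalSpace E] (γ : C(D1, E)) : SC E := single ⟨1, γ⟩ 1

/-- The straight path between two points. -/
noncomputable def seg {E : Type} [NormedAddCommGroup E] [NormedSpace ℝ E] (u v : E) : C(D1, E) :=
  ⟨fun s => u + s.1 1 • (v - u), continuous_const.add
    (((continuous_apply 1).comp continuous_subtype_val).smul continuous_const)⟩

theorem par_mem (s : D1) : s.1 1 ∈ Icc (0 : ℝ) 1 := mem_Icc_of_mem_stdSimplex s.2 1

theorem seg_v0 {E : Type} [NormedAddCommGroup E] [NormedSpace ℝ E] (u v : E) : seg u v v0 = u := by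
  simp [seg]

theorem seg_v1 {E : Type} [NormedAddCommGroup E] [NormedSpace ℝ E] (u v : E) : seg u v v1 = v := by
  simp [seg]

/-- The parametrisation of the suspension of the double telescope. -/
noncomputable def qq : C(ℝ × ℝ × ℝ, SP TT) :=
  ⟨fun p => smk (tmk p.1 p.2.1) p.2.2,
    continuous_smk.comp (f := fun p : ℝ × ℝ × ℝ => (tmk p.1 p.2.1, p.2.2))
      ((continuous_tmk.comp (f := fun p : ℝ × ℝ × ℝ => (p.1, p.2.1)) (by fun_prop)).prodMk
        (by fun_prop))⟩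

theorem qq_apply (a t s : ℝ) : qq (a, t, s) = smk (tmk a t) s := rfl

theorem qq_surj (y : SP TT) : qq (th (sx y), tt (sx y), hh y) = y := by
  rw [qq_apply, tmk_th, smk_sx]

/-- The parameter domain. -/
def PP : Set (ℝ × ℝ × ℝ) := {p | |p.2.2| < 1}

theorem convex_PP : Convex ℝ PP := by
  have h : PP = (LinearMap.snd ℝ ℝ ℝ ∘ₗ LinearMap.snd ℝ ℝ (ℝ × ℝ)) ⁻¹' Ioo (-1) 1 :=
    Set.ext fun p => (abs_lt : |p.2.2| < 1 ↔ _)
  rw [h]
  exact (convex_Ioo _ _).linear_preimage _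

theorem zero_mem_PP : (0 : ℝ × ℝ × ℝ) ∈ PP := by simp [PP]

instance : ContractibleSpace PP := convex_PP.contractibleSpace ⟨0, zero_mem_PP⟩

theorem smk_mem_Wd {X : Type} (x : X) {r : ℝ} (hr : |r| < 1) : smk x r ∈ Wd X := by
  change |hh (smk x r)| < 1
  rwa [hh_smk x ⟨(abs_lt.1 hr).1.le, (abs_lt.1 hr).2.le⟩]

theorem qq_maps : MapsTo qq PP (Wd TT) := fun _ hp => smk_mem_Wd _ hp

theorem seg_mem {u v : ℝ × ℝ × ℝ} (hu : u ∈ PP) (hv : v ∈ PP) (s : D1) : seg u v s ∈ PP :=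
  convex_PP.add_smul_sub_mem hu hv (par_mem s)

theorem qq_inj {u v : ℝ × ℝ × ℝ} (hu : u ∈ PP) (hv : v ∈ PP) (h : qq u = qq v) :
    tmk u.1 u.2.1 = tmk v.1 v.2.1 ∧ u.2.2 = v.2.2 := by
  have hu' := abs_lt.1 (show |u.2.2| < 1 from hu)
  have hv' := abs_lt.1 (show |v.2.2| < 1 from hv)
  constructor
  · rw [← sx_smk (tmk u.1 u.2.1) hu, ← sx_smk (tmk v.1 v.2.1) hv]
    exact congrArg sx h
  · rw [← hh_smk (tmk u.1 u.2.1) ⟨hu'.1.le, hu'.2.le⟩, ← hh_smk (tmk v.1 v.2.1) ⟨hv'.1.le, hv'.2.le⟩]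
    exact congrArg hh h

section Phi

variable {M : Type} [AddCommGroup M] (φ : SC (SP TT) →+ M)
  (hφ : ∀ w ∈ SCq (Wd TT) 2, φ (sbd _ w) = 0)

include hφ

theorem kill {E : Type} [TopologicalSpace E] (Z : Set E) [ContractibleSpace Z] (f : C(E, SP TT))
    (hf : MapsTo f Z (Wd TT)) {x : SC E} (hx : x ∈ SCq Z 1) (h0 : sbd E x = 0) :
    φ (spush f x) = 0 := by
  obtain ⟨w, hw, rfl⟩ := MP_735653_gt.acyclic Z 0 hx h0
  rw [← sbd_spush]
  refine hφ _ (MP_735653_gt.map_supported_cmp _ (spush f) ?_ hw)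
  rintro s ⟨hs, hr⟩
  rw [spush_single]
  refine single_mem_supported ℤ _ ⟨hs, ?_⟩
  rintro _ ⟨t, rfl⟩
  exact hf (hr ⟨t, rfl⟩)

theorem tri {E : Type} [TopologicalSpace E] (Z : Set E) [ContractibleSpace Z] (f : C(E, SP TT))
    (hf : MapsTo f Z (Wd TT)) (a b c : C(D1, E)) (ha : ∀ s, a s ∈ Z) (hb : ∀ s, b s ∈ Z)
    (hc : ∀ s, c s ∈ Z) (h1 : a v1 = b v0) (h2 : c v0 = a v0) (h3 : c v1 = b v1) :
    φ (ch (f.comp a)) + φ (ch (f.comp b)) = φ (ch (f.comp c)) := by
  have m : ∀ g : C(D1, E), (∀ s, g s ∈ Z) → ch g ∈ SCq Z 1 := fun g hg =>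
    single_mem_supported ℤ _ ⟨rfl, range_subset_iff.2 hg⟩
  have e : ∀ g : C(D1, E), spush f (ch g) = ch (f.comp g) := fun g => spush_single _ _ _
  have h := kill φ hφ Z f hf (x := ch a + ch b - ch c)
    (Submodule.sub_mem _ (Submodule.add_mem _ (m a ha) (m b hb)) (m c hc)) (by
      simp only [ch, map_sub, map_add, sbd_one]
      rw [h1, h2, h3]
      abel)
  rwa [map_sub, map_add, e, e, e, map_sub, map_add, sub_eq_zero] at h

omit hφ in
/-- The class of the image of a segment. -/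
noncomputable def LL (u v : ℝ × ℝ × ℝ) : M := φ (ch (qq.comp (seg u v)))

theorem LL_add {u v w : ℝ × ℝ × ℝ} (hu : u ∈ PP) (hv : v ∈ PP) (hw : w ∈ PP) :
    LL φ u v + LL φ v w = LL φ u w :=
  tri φ hφ PP qq qq_maps _ _ _ (seg_mem hu hv) (seg_mem hv hw) (seg_mem hu hw)
    (by rw [seg_v0, seg_v1]) (by rw [seg_v0, seg_v0]) (by rw [seg_v1, seg_v1])

theorem LL_self {u : ℝ × ℝ × ℝ} (hu : u ∈ PP) : LL φ u u = 0 :=
  left_eq_add.1 (LL_add φ hφ hu hu hu).symm

theorem LL_path (g : C(D1, ℝ × ℝ × ℝ)) (hg : ∀ s, g s ∈ PP) :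
    φ (ch (qq.comp g)) = LL φ (g v0) (g v1) := by
  have h := tri φ hφ PP qq qq_maps g (seg (g v1) (g v1)) (seg (g v0) (g v1)) hg
    (seg_mem (hg _) (hg _)) (seg_mem (hg _) (hg _)) (seg_v0 _ _).symm (seg_v0 _ _)
    (by rw [seg_v1, seg_v1])
  have h' : φ (ch (qq.comp (seg (g v1) (g v1)))) = 0 := LL_self φ hφ (hg v1)
  rwa [h', add_zero] at h

omit hφ in
theorem LL_congr {u v u' v' : ℝ × ℝ × ℝ}
    (h : ∀ r ∈ Icc (0 : ℝ) 1, qq (u + r • (v - u)) = qq (u' + r • (v' - u'))) :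
    LL φ u v = LL φ u' v' := by
  have : qq.comp (seg u v) = qq.comp (seg u' v') := ContinuousMap.ext fun s => h _ (par_mem s)
  rw [LL, LL, this]

theorem LL_fibre (h2 : ∀ m : M, m + m = 0) {u v : ℝ × ℝ × ℝ} (hu : u ∈ PP) (hv : v ∈ PP)
    (h : qq u = qq v) : LL φ u v = 0 := by
  obtain ⟨a, t, s⟩ := u
  obtain ⟨b, t', s'⟩ := v
  obtain ⟨h3, rfl⟩ := qq_inj hu hv h
  obtain ⟨rfl, k, hk⟩ := tmk_eq_iff.1 h3
  simp only at hk
  obtain ⟨T, hT, hT'⟩ : ∃ T : ℝ, |T| = (⌊|t|⌋₊ + 1 : ℕ) ∧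
      ∀ r ∈ Icc (0 : ℝ) 1, |t| ≤ |t + r * (T - t)| := by
    have h4 := Nat.lt_floor_add_one |t|
    rcases le_total 0 t with h5 | h5
    · refine ⟨(⌊|t|⌋₊ + 1 : ℕ), abs_of_nonneg (by positivity), fun r hr => ?_⟩
      refine le_trans ?_ (le_abs_self _)
      have h6 := abs_of_nonneg h5
      have h7 : 0 ≤ r * (((⌊|t|⌋₊ + 1 : ℕ) : ℝ) - t) := mul_nonneg hr.1 (by push_cast; linarith)
      linarith
    · refine ⟨-(⌊|t|⌋₊ + 1 : ℕ), by rw [abs_neg, abs_of_nonneg (by positivity)], fun r hr => ?_⟩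
      refine le_trans ?_ (neg_le_abs _)
      have h6 := abs_of_nonpos h5
      have h7 : 0 ≤ r * (((⌊|t|⌋₊ + 1 : ℕ) : ℝ) + t) := mul_nonneg hr.1 (by push_cast; linarith)
      linarith
  have m : ∀ c l : ℝ, ((c, l, s) : ℝ × ℝ × ℝ) ∈ PP := fun _ _ => hu
  have e1 : LL φ (a, t, s) (a, T, s) = LL φ (b, t, s) (b, T, s) := LL_congr φ fun r hr => by
    simp only [Prod.mk_sub_mk, Prod.smul_mk, Prod.mk_add_mk, sub_self, smul_eq_mul, mul_zero,
      add_zero, qq_apply]
    rw [tmk_eq_of (Nat.floor_mono (hT' r hr)) ⟨k, hk⟩]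
  have e2 : LL φ (a, T, s) ((a + b) / 2, T, s) = LL φ ((a + b) / 2, T, s) (b, T, s) :=
    LL_congr φ fun r _ => by
      simp only [Prod.mk_sub_mk, Prod.smul_mk, Prod.mk_add_mk, sub_self, smul_eq_mul, smul_zero,
        add_zero, qq_apply]
      rw [tmk_eq_of (m := ⌊|t|⌋₊ + 1) (by rw [hT, Nat.floor_natCast])
        (θ' := (a + b) / 2 + r * (b - (a + b) / 2)) ⟨k, by rw [← hk]; ring⟩]
  have e3 := LL_add φ hφ (m a T) (m ((a + b) / 2) T) (m b T)
  rw [e2, h2] at e3
  have e4 := LL_add φ hφ (m a t) (m a T) (m b T)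
  have e5 := LL_add φ hφ (m a t) (m b t) (m b T)
  rw [← e3, add_zero, e1, ← e5] at e4
  exact (right_eq_add.1 e4)

theorem phi_path (h2 : ∀ m : M, m + m = 0) {e : ℝ} (he : e = 1 ∨ e = -1) (σ : C(D1, SP TT))
    (hσ : ∀ s, σ s ∈ Wd TT ∧ -1 / 2 < e * tt (sx (σ s))) :
    φ (ch σ) = LL φ (th (sx (σ v0)), tt (sx (σ v0)), hh (σ v0))
      (th (sx (σ v1)), tt (sx (σ v1)), hh (σ v1)) := by
  have hee : e * e = 1 := by rcases he with rfl | rfl <;> norm_num
  have hξ : Continuous fun s => sx (σ s) :=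
    continuousOn_sx.comp_continuous σ.continuous fun s => (hσ s).1
  obtain ⟨N, hN⟩ : ∃ N : ℕ, ∀ s, |tt (sx (σ s))| ≤ N := by
    obtain ⟨C, hC⟩ := isCompact_univ.exists_bound_of_continuousOn
      (continuous_tt.comp hξ).continuousOn
    obtain ⟨N, hN⟩ := exists_nat_gt C
    exact ⟨N, fun s => (hC s (mem_univ _)).trans hN.le⟩
  have hN' : ∀ s, |tt (sx (σ s))| < N + 1 := fun s => lt_of_le_of_lt (hN s) (lt_add_one _)
  have l0 : ∀ s, lev e (tt (sx (σ s))) (-1 / 2) = tt (sx (σ s)) := fun s => by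
    have h1 := (hσ s).2
    rw [lev, max_eq_left h1.le, max_eq_left (by linarith), ← mul_assoc, hee, one_mul]
  have l1 : ∀ s, lev e (tt (sx (σ s))) N = e * N := fun s => by
    have h1 := (hσ s).2
    have h3 : e * tt (sx (σ s)) ≤ N := by
      have := abs_le.1 (hN s)
      rcases he with rfl | rfl <;> linarith [this.1, this.2]
    have h4 : (0 : ℝ) ≤ N := N.cast_nonneg
    rw [lev, max_eq_right h3, max_eq_left (by linarith)]
  obtain ⟨α, hα⟩ : ∃ α : C(D1, ℝ), ∀ s, (α s : UnitAddCircle) = ang N (sx (σ s)) := by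
    have hc : Continuous fun s => ang N (sx (σ s)) :=
      (continuousOn_ang N).comp_continuous hξ hN'
    obtain ⟨Γ, hΓ, -⟩ := (AddCircle.isCoveringMap_coe (1 : ℝ)).exists_path_lifts
      ⟨fun r => ang N (sx (σ (stdSimplexHomeomorphUnitInterval.symm r))),
        hc.comp stdSimplexHomeomorphUnitInterval.symm.continuous⟩ _ rfl
    refine ⟨⟨fun s => Γ (stdSimplexHomeomorphUnitInterval s),
      Γ.continuous.comp stdSimplexHomeomorphUnitInterval.continuous⟩, fun s => ?_⟩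
    simpa using congrFun hΓ (stdSimplexHomeomorphUnitInterval s)
  let G : C(D1 × ℝ, SP TT) := ⟨fun p => smk (push e (sx (σ p.1), p.2)) (hh (σ p.1)),
    continuous_smk.comp (f := fun p : D1 × ℝ => (push e (sx (σ p.1), p.2), hh (σ p.1)))
      (((continuous_push he).comp ((hξ.comp continuous_fst).prodMk continuous_snd)).prodMk
        (continuous_hh.comp (σ.continuous.comp continuous_fst)))⟩
  have hG : ∀ s a, G (s, a) = qq (th (sx (σ s)), lev e (tt (sx (σ s))) a, hh (σ s)) :=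
    fun _ _ => rfl
  have : ContractibleSpace D1 := (convex_stdSimplex ℝ (Fin 2)).contractibleSpace ⟨_, v0.2⟩
  have : ContractibleSpace (univ : Set (D1 × ℝ)) := (Homeomorph.Set.univ _).contractibleSpace
  have hGm : MapsTo G univ (Wd TT) := fun p _ => smk_mem_Wd _ (hσ p.1).1
  let hor : ℝ → C(D1, D1 × ℝ) := fun a => (ContinuousMap.id D1).prodMk (ContinuousMap.const _ a)
  let ver : D1 → C(D1, D1 × ℝ) := fun s =>
    (ContinuousMap.const _ s).prodMk (seg (-1 / 2 : ℝ) N)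
  let dia : C(D1, D1 × ℝ) := (ContinuousMap.id D1).prodMk (seg (-1 / 2 : ℝ) N)
  have t1 := tri φ hφ univ G hGm (hor (-1 / 2)) (ver v1) dia (fun _ => mem_univ _)
    (fun _ => mem_univ _) (fun _ => mem_univ _) (Prod.ext rfl (seg_v0 _ _).symm)
    (Prod.ext rfl (seg_v0 _ _)) rfl
  have t2 := tri φ hφ univ G hGm (ver v0) (hor N) dia (fun _ => mem_univ _)
    (fun _ => mem_univ _) (fun _ => mem_univ _) (Prod.ext rfl (seg_v1 _ _)) rfl
    (Prod.ext rfl (seg_v1 _ _))
  have m : ∀ (c l : ℝ) (s : D1), ((c, l, hh (σ s)) : ℝ × ℝ × ℝ) ∈ PP := fun _ _ s => (hσ s).1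
  have b1 : G.comp (hor (-1 / 2)) = σ := ContinuousMap.ext fun s => by
    change G (s, -1 / 2) = _
    rw [hG, l0, qq_surj]
  have b2 : ∀ s, φ (ch (G.comp (ver s))) = LL φ (th (sx (σ s)), tt (sx (σ s)), hh (σ s))
      (th (sx (σ s)), e * N, hh (σ s)) := fun s => by
    let β : C(D1, ℝ × ℝ × ℝ) :=
      ⟨fun r => (th (sx (σ s)), lev e (tt (sx (σ s))) (seg (-1 / 2 : ℝ) N r), hh (σ s)),
        continuous_const.prodMk (((continuous_lev e).comp (f := fun r : D1 =>
          (tt (sx (σ s)), seg (-1 / 2 : ℝ) N r))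
          (continuous_const.prodMk (seg (-1 / 2 : ℝ) N).continuous)).prodMk continuous_const)⟩
    have h1 := LL_path φ hφ β fun r => m _ _ s
    simp only [β, ContinuousMap.coe_mk, seg_v0, seg_v1, l0, l1] at h1
    exact h1
  have b3 : ∀ s, qq (th (sx (σ s)), e * N, hh (σ s)) = qq (α s / 2 ^ N, e * N, hh (σ s)) := by
    intro s
    have h1 : |e * N| = N := by rcases he with rfl | rfl <;> simp
    obtain ⟨k, hk⟩ := coe_eq_iff_int.1 (hα s).symm
    rw [qq_apply, qq_apply, tmk_eq_of (m := N) (θ' := α s / 2 ^ N)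
      (by rw [h1, Nat.floor_natCast]) ⟨k, by rw [← hk]; field_simp⟩]
  have b4 : φ (ch (G.comp (hor N))) =
      LL φ (α v0 / 2 ^ N, e * N, hh (σ v0)) (α v1 / 2 ^ N, e * N, hh (σ v1)) := by
    let γ : C(D1, ℝ × ℝ × ℝ) := ⟨fun s => (α s / 2 ^ N, e * N, hh (σ s)),
      (α.continuous.div_const _).prodMk
        (continuous_const.prodMk (continuous_hh.comp σ.continuous))⟩
    have h1 : G.comp (hor N) = qq.comp γ := ContinuousMap.ext fun s => by
      change G (s, N) = _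
      rw [hG, l1, b3]
      rfl
    rw [h1]
    exact LL_path φ hφ γ fun s => m _ _ s
  rw [b1, b2, ← t2, b2, b4] at t1
  have c0 := LL_fibre φ hφ h2 (m _ _ v0) (m _ _ v0) (b3 v0)
  have c1 := LL_fibre φ hφ h2 (m _ _ v1) (m _ _ v1) (b3 v1).symm
  have c2 := LL_add φ hφ (m (th (sx (σ v0))) (e * N) v0) (m (α v0 / 2 ^ N) (e * N) v0)
    (m (α v1 / 2 ^ N) (e * N) v1)
  have c3 := LL_add φ hφ (m (th (sx (σ v0))) (e * N) v0) (m (α v1 / 2 ^ N) (e * N) v1)
    (m (th (sx (σ v1))) (e * N) v1)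
  rw [c0, zero_add] at c2
  rw [c1, add_zero] at c3
  rw [c2, c3, LL_add φ hφ (m _ _ v0) (m _ _ v0) (m _ _ v1),
    ← LL_add φ hφ (m _ _ v0) (m (th (sx (σ v1))) (tt (sx (σ v1))) v1) (m _ _ v1)] at t1
  exact add_right_cancel t1

end Phi

theorem bounds_one {z : GSC (ZMod 2) (SP TT)} (hz : z ∈ GSCq (ZMod 2) (Wd TT) 1)
    (h0 : gsbd (ZMod 2) _ z = 0) : ∃ p ∈ GSCq (ZMod 2) (Wd TT) 2, gsbd (ZMod 2) _ p = z := by
  let B := (GSCq (ZMod 2) (Wd TT) 2).map (gsbd (ZMod 2) (SP TT))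
  let φ : SC (SP TT) →+ (GSC (ZMod 2) (SP TT) ⧸ B) := B.mkQ.toAddMonoidHom.comp red
  have hφ : ∀ w ∈ SCq (Wd TT) 2, φ (sbd _ w) = 0 := fun w hw =>
    (Submodule.Quotient.mk_eq_zero B).2 ⟨red w, red_mem hw, (red_sbd w).symm⟩
  have h2 : ∀ m : GSC (ZMod 2) (SP TT) ⧸ B, m + m = 0 := fun m => by
    rw [← two_smul (ZMod 2), show (2 : ZMod 2) = 0 from rfl, zero_smul]
  let U : Bool → Set (SP TT) := fun b =>
    Wd TT ∩ (fun y => tt (sx y)) ⁻¹' {r | -1 / 2 < cond b 1 (-1) * r}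
  have hU : ∀ b, IsOpen (U b) := fun b =>
    (continuous_tt.comp_continuousOn continuousOn_sx).isOpen_inter_preimage isOpen_Wd
      (isOpen_lt continuous_const (by fun_prop))
  obtain ⟨z', hz', w, hw, rfl⟩ := exists_small U hU (Wd TT) (fun y hy => by
    rcases le_total 0 (tt (sx y)) with h | h
    · exact ⟨true, hy, by change -1 / 2 < 1 * tt (sx y); linarith⟩
    · exact ⟨false, hy, by change -1 / 2 < -1 * tt (sx y); linarith⟩) 1 hz h0
  rw [map_add, SingG.sbd_sbd, add_zero] at h0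
  let l : GSC (ZMod 2) (SP TT) →ₗ[ZMod 2] (GSC (ZMod 2) (SP TT) ⧸ B) :=
    linearCombination (ZMod 2) fun s : Sx (SP TT) =>
      LL φ 0 (th (sx (s.2 (stdSimplex.vertex 0))), tt (sx (s.2 (stdSimplex.vertex 0))),
        hh (s.2 (stdSimplex.vertex 0)))
  have h3 := SingG.map_supported_cmp (LinearMap.eqLocus B.mkQ (l ∘ₗ gsbd (ZMod 2) (SP TT)))
    LinearMap.id (fun s hs => by
      obtain ⟨q, σ⟩ := s
      obtain ⟨rfl, b, hb⟩ := hs
      have hσ := range_subset_iff.1 hb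
      have h4 := phi_path φ hφ h2 (e := cond b 1 (-1)) (by cases b <;> simp) σ hσ
      have h5 : φ (ch σ) = B.mkQ (single ⟨1, σ⟩ 1) := by
        change B.mkQ (red (single ⟨1, σ⟩ 1)) = _
        rw [red_single, Int.cast_one]
      rw [LinearMap.id_apply, LinearMap.mem_eqLocus, LinearMap.comp_apply, gsbd_one, map_sub,
        ← h5, h4, eq_sub_iff_add_eq']
      simp only [l, linearCombination_single, one_smul]
      exact LL_add φ hφ zero_mem_PP (hσ v0).1 (hσ v1).1) hz'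
  rw [LinearMap.id_apply, LinearMap.mem_eqLocus, LinearMap.comp_apply, h0, map_zero] at h3
  obtain ⟨p, hp, e⟩ := (Submodule.Quotient.mk_eq_zero B).1 h3
  exact ⟨p + w, Submodule.add_mem _ hp hw, by rw [map_add, e]⟩

end Pool.Agent.Work.MP_653b6e_gt.Hedge
end

-- merged part: Pool.Agent.Work.MP_653b6e_gt.Hedge.AS
section
/-! Poincare lemmas for cochains on small tuples, and the descent along hemispheres. -/

namespace Pool.Agent.Work.MP_653b6e_gt.Hedge

open Set

section AS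

variable {E : Type} [PseudoMetricSpace E] {A : Type} [CommRing A]

/-- A contraction of `D` to `p` in small steps. -/
def Steps (D : Set E) (p : E) : Prop :=
  ∀ ε > 0, ∃ δ > 0, ∃ (M : ℕ) (f : ℕ → E → E), (∀ k, MapsTo (f k) D D) ∧ (∀ x ∈ D, f 0 x = x) ∧
    (∀ x ∈ D, f M x = p) ∧ ∀ k, ∀ x ∈ D, ∀ y ∈ D, dist x y < δ →
      dist (f k x) (f k y) < ε ∧ dist (f k x) (f (k + 1) y) < ε

theorem steps_of_contraction {D : Set E} (hD : IsCompact D) {p : E} (H : E × ℝ → E)
    (hc : ContinuousOn H (D ×ˢ Icc 0 1)) (hm : MapsTo H (D ×ˢ Icc 0 1) D)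
    (h0 : ∀ x ∈ D, H (x, 0) = x) (h1 : ∀ x ∈ D, H (x, 1) = p) : Steps D p := by
  intro ε hε
  have hu := (hD.prod isCompact_Icc).uniformContinuousOn_of_continuous hc
  obtain ⟨δ, hδ, h⟩ := Metric.uniformContinuousOn_iff.1 hu ε hε
  obtain ⟨M, hM⟩ := exists_nat_one_div_lt hδ
  have hpos : (0 : ℝ) < (M : ℝ) + 1 := by positivity
  have hmem : ∀ k : ℕ, min ((k : ℝ) / (M + 1)) 1 ∈ Icc (0 : ℝ) 1 := fun k =>
    ⟨le_min (by positivity) zero_le_one, min_le_right _ _⟩
  refine ⟨δ, hδ, M + 1, fun k x => H (x, min ((k : ℝ) / (M + 1)) 1),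
    fun k x hx => hm ⟨hx, hmem k⟩, fun x hx => ?_, fun x hx => ?_, fun k x hx y hy hxy =>
      ⟨h _ ⟨hx, hmem k⟩ _ ⟨hy, hmem k⟩ ?_, h _ ⟨hx, hmem k⟩ _ ⟨hy, hmem (k + 1)⟩ ?_⟩⟩
  · simpa using h0 x hx
  · have : min ((((M + 1 : ℕ) : ℝ)) / (M + 1)) 1 = 1 := by
      rw [Nat.cast_succ, div_self hpos.ne', min_self]
    simp only [this]
    exact h1 x hx
  · rw [Prod.dist_eq, dist_self]
    exact max_lt hxy hδ
  · rw [Prod.dist_eq]
    refine max_lt hxy (lt_of_le_of_lt ?_ hM)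
    rw [Real.dist_eq]
    refine (abs_min_sub_min_le_max _ _ _ _).trans ?_
    rw [sub_self, abs_zero, Nat.cast_succ, ← sub_div, sub_add_cancel_left, neg_div, abs_neg,
      abs_of_pos (by positivity)]
    exact max_le le_rfl (by positivity)

theorem poincare_two {D : Set E} {p : E} (hD : Steps D p) (c : E → E → E → A) {ε : ℝ} (hε : 0 < ε)
    (hc : ∀ x ∈ D, ∀ y ∈ D, ∀ z ∈ D, ∀ w ∈ D, dist x y < ε → dist x z < ε → dist x w < ε →
      c y z w - c x z w + c x y w - c x y z = 0) :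
    ∃ δ > 0, ∃ e : E → E → A, ∀ x ∈ D, ∀ y ∈ D, ∀ z ∈ D, dist x y < δ → dist x z < δ →
      c x y z = e y z - e x z + e x y := by
  obtain ⟨δ, hδ, M, f, hm, h0, h1, h⟩ := hD ε hε
  let P : ℕ → E → E → A := fun k x y =>
    c (f k x) (f k y) (f (k + 1) y) - c (f k x) (f (k + 1) x) (f (k + 1) y)
  refine ⟨δ, hδ, fun x y => ∑ k ∈ Finset.range M, P k x y + c p p p,
    fun x hx y hy z hz hxy hxz => ?_⟩
  have hxx : dist x x < δ := by rwa [dist_self]
  have key : ∀ k, c x y z - c (f k x) (f k y) (f k z) = ∑ j ∈ Finset.range k, P j y z -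
      ∑ j ∈ Finset.range k, P j x z + ∑ j ∈ Finset.range k, P j x y := by
    intro k
    induction k with
    | zero => simp [h0 x hx, h0 y hy, h0 z hz]
    | succ k ih =>
      have T1 := hc _ (hm k hx) _ (hm k hy) _ (hm k hz) _ (hm (k + 1) hz) (h k x hx y hy hxy).1
        (h k x hx z hz hxz).1 (h k x hx z hz hxz).2
      have T2 := hc _ (hm k hx) _ (hm k hy) _ (hm (k + 1) hy) _ (hm (k + 1) hz)
        (h k x hx y hy hxy).1 (h k x hx y hy hxy).2 (h k x hx z hz hxz).2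
      have T3 := hc _ (hm k hx) _ (hm (k + 1) hx) _ (hm (k + 1) hy) _ (hm (k + 1) hz)
        (h k x hx x hx hxx).2 (h k x hx y hy hxy).2 (h k x hx z hz hxz).2
      simp only [Finset.sum_range_succ, P] at ih ⊢
      linear_combination ih - T1 + T2 - T3
  have := key M
  rw [h1 x hx, h1 y hy, h1 z hz] at this
  linear_combination this

theorem poincare_one {D : Set E} {p : E} (hp : p ∈ D) (hD : Steps D p) (g : E → E → A) {ε : ℝ}
    (hε : 0 < ε) (hg : ∀ x ∈ D, ∀ y ∈ D, ∀ z ∈ D, dist x y < ε → dist x z < ε →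
      g y z - g x z + g x y = 0) :
    ∃ δ > 0, ∃ u : E → A, ∀ x ∈ D, ∀ y ∈ D, dist x y < δ → g x y = u y - u x := by
  obtain ⟨δ, hδ, M, f, hm, h0, h1, h⟩ := hD ε hε
  refine ⟨δ, hδ, fun x => -∑ k ∈ Finset.range M, g (f k x) (f (k + 1) x),
    fun x hx y hy hxy => ?_⟩
  have hxx : dist x x < δ := by rwa [dist_self]
  have key : ∀ k, g x y - g (f k x) (f k y) = ∑ j ∈ Finset.range k, g (f j x) (f (j + 1) x) -
      ∑ j ∈ Finset.range k, g (f j y) (f (j + 1) y) := by
    intro k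
    induction k with
    | zero => simp [h0 x hx, h0 y hy]
    | succ k ih =>
      have T1 := hg _ (hm k hx) _ (hm k hy) _ (hm (k + 1) hy) (h k x hx y hy hxy).1
        (h k x hx y hy hxy).2
      have T2 := hg _ (hm k hx) _ (hm (k + 1) hx) _ (hm (k + 1) hy) (h k x hx x hx hxx).2
        (h k x hx y hy hxy).2
      simp only [Finset.sum_range_succ]
      linear_combination ih + T1 - T2
  have h2 := key M
  have h3 := hg p hp p hp p hp (by rwa [dist_self]) (by rwa [dist_self])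
  rw [h1 x hx, h1 y hy] at h2
  linear_combination h2 + h3

omit [CommRing A] in
theorem poincare_zero {D : Set E} {p : E} (hD : Steps D p) (v : E → A) {ε : ℝ} (hε : 0 < ε)
    (hv : ∀ x ∈ D, ∀ y ∈ D, dist x y < ε → v x = v y) : ∀ x ∈ D, v x = v p := by
  obtain ⟨δ, hδ, M, f, hm, h0, h1, h⟩ := hD ε hε
  intro x hx
  have key : ∀ k, v x = v (f k x) := by
    intro k
    induction k with
    | zero => rw [h0 x hx]
    | succ k ih =>
      exact ih.trans (hv _ (hm k hx) _ (hm (k + 1) hx) (h k x hx x hx (by rwa [dist_self])).2)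
  rw [key M, h1 x hx]

end AS

section Hemi

variable {m : ℕ}

/-- The closed hemisphere of the coordinate sphere of dimension `k`. -/
def hemi (k : Fin m) : Set (EuclideanSpace ℝ (Fin m)) :=
  {y | ‖y‖ = 1 ∧ (∀ i, k < i → y i = 0) ∧ 0 ≤ y k}

theorem single_mem_hemi (k : Fin m) : EuclideanSpace.single k (1 : ℝ) ∈ hemi k :=
  ⟨by simp, fun i hi => by simp [hi.ne'], by simp⟩

theorem isCompact_hemi (k : Fin m) : IsCompact (hemi k) := by
  refine (isCompact_sphere (0 : EuclideanSpace ℝ (Fin m)) 1).of_isClosed_subset ?_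
    fun y hy => mem_sphere_zero_iff_norm.2 hy.1
  refine (isClosed_eq continuous_norm continuous_const).inter (IsClosed.inter ?_
    (isClosed_le (g := fun y : EuclideanSpace ℝ (Fin m) => y k) continuous_const (by fun_prop)))
  have : {y : EuclideanSpace ℝ (Fin m) | ∀ i, k < i → y i = 0} =
      ⋂ i, ⋂ (_ : k < i), {y | y i = 0} := by
    ext y
    simp
  change IsClosed {y : EuclideanSpace ℝ (Fin m) | ∀ i, k < i → y i = 0}
  rw [this]
  exact isClosed_iInter fun i => isClosed_iInter fun _ =>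
    isClosed_eq (by fun_prop) continuous_const

theorem steps_hemi (k : Fin m) : Steps (hemi k) (EuclideanSpace.single k (1 : ℝ)) := by
  let w : EuclideanSpace ℝ (Fin m) × ℝ → EuclideanSpace ℝ (Fin m) := fun q =>
    (1 - q.2) • q.1 + q.2 • EuclideanSpace.single k (1 : ℝ)
  have hw : Continuous w := by fun_prop
  have hne : ∀ q ∈ hemi k ×ˢ Icc (0 : ℝ) 1, ‖w q‖ ≠ 0 := by
    rintro ⟨y, s⟩ ⟨hy, hs⟩ h
    have h1 : w (y, s) = 0 := norm_eq_zero.1 h
    have h2 : (1 - s) * y k + s = 0 := by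
      simpa [w] using congrArg (fun z : EuclideanSpace ℝ (Fin m) => z k) h1
    have h3 : s = 0 := by
      have := mul_nonneg (sub_nonneg.2 hs.2) hy.2.2
      linarith [hs.1]
    have h4 : y = 0 := by simpa [w, h3] using h1
    have h5 := hy.1
    rw [h4, norm_zero] at h5
    exact zero_ne_one h5
  refine steps_of_contraction (isCompact_hemi k) (fun q => ‖w q‖⁻¹ • w q)
    ((hw.norm.continuousOn.inv₀ hne).smul hw.continuousOn) (fun q hq => ⟨?_, fun i hi => ?_, ?_⟩)
    (fun x hx => ?_) fun x _ => ?_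
  · rw [norm_smul, norm_inv, norm_norm, inv_mul_cancel₀ (hne q hq)]
  · simp [w, hq.1.2.1 i hi, hi.ne']
  · have h1 : 0 ≤ (1 - q.2) * q.1 k + q.2 :=
      add_nonneg (mul_nonneg (sub_nonneg.2 hq.2.2) hq.1.2.2) hq.2.1
    have h2 : (‖w q‖⁻¹ • w q) k = ‖w q‖⁻¹ * ((1 - q.2) * q.1 k + q.2) := by simp [w, mul_add]
    rw [h2]
    positivity
  · simp [w, hx.1]
  · simp [w]

theorem mem_hemi_of_lt {j k : Fin m} (h : j < k) {y : EuclideanSpace ℝ (Fin m)} (hy : y ∈ hemi j) :
    y ∈ hemi k ∧ -y ∈ hemi k :=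
  ⟨⟨hy.1, fun i hi => hy.2.1 i (h.trans hi), (hy.2.1 k h).ge⟩,
    by rw [norm_neg, hy.1], fun i hi => by simp [hy.2.1 i (h.trans hi)], by simp [hy.2.1 k h]⟩

theorem descent {A : Type} [CommRing A] (hm : 4 ≤ m)
    (c : EuclideanSpace ℝ (Fin m) → EuclideanSpace ℝ (Fin m) → EuclideanSpace ℝ (Fin m) → A)
    (b : EuclideanSpace ℝ (Fin m) → EuclideanSpace ℝ (Fin m) → A)
    (k : EuclideanSpace ℝ (Fin m) → A) {ε : ℝ} (hε : 0 < ε)
    (hc : ∀ x y z w, ‖x‖ = 1 → ‖y‖ = 1 → ‖z‖ = 1 → ‖w‖ = 1 → dist x y < ε → dist x z < ε →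
      dist x w < ε → c y z w - c x z w + c x y w - c x y z = 0)
    (hb : ∀ x y z, ‖x‖ = 1 → ‖y‖ = 1 → ‖z‖ = 1 →
      c x y z - c (-x) (-y) (-z) = b y z - b x z + b x y)
    (hk : ∀ x y, ‖x‖ = 1 → ‖y‖ = 1 → b x y + b (-x) (-y) = k y - k x) :
    ∃ x, ‖x‖ = 1 ∧ k x = k (-x) := by
  let i0 : Fin m := ⟨0, by omega⟩
  let i1 : Fin m := ⟨1, by omega⟩
  let i2 : Fin m := ⟨2, by omega⟩
  let i3 : Fin m := ⟨3, by omega⟩
  have h01 : i0 < i1 := by simp [i0, i1]
  have h12 : i1 < i2 := by simp [i1, i2]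
  have h23 : i2 < i3 := by simp [i2, i3]
  obtain ⟨δ, hδ, e, he⟩ := poincare_two (steps_hemi i3) c hε
    fun x hx y hy z hz w hw => hc x y z w hx.1 hy.1 hz.1 hw.1
  obtain ⟨δ', hδ', u, hu⟩ := poincare_one (single_mem_hemi i2) (steps_hemi i2)
    (fun x y => e x y - e (-x) (-y) - b x y) hδ (fun x hx y hy z hz hxy hxz => by
      have e1 := he x (mem_hemi_of_lt h23 hx).1 y (mem_hemi_of_lt h23 hy).1 z
        (mem_hemi_of_lt h23 hz).1 hxy hxz
      have e2 := he _ (mem_hemi_of_lt h23 hx).2 _ (mem_hemi_of_lt h23 hy).2 _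
        (mem_hemi_of_lt h23 hz).2 (by rwa [dist_neg_neg]) (by rwa [dist_neg_neg])
      have e3 := hb x y z hx.1 hy.1 hz.1
      linear_combination e3 - e1 + e2)
  have hv := poincare_zero (steps_hemi i1) (fun x => u x + u (-x) + k x) hδ'
    (fun x hx y hy hxy => by
      have e1 := hu x (mem_hemi_of_lt h12 hx).1 y (mem_hemi_of_lt h12 hy).1 hxy
      have e2 := hu _ (mem_hemi_of_lt h12 hx).2 _ (mem_hemi_of_lt h12 hy).2
        (by rwa [dist_neg_neg])
      have e3 := hk x y hx.1 hy.1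
      simp only [neg_neg] at e1 e2
      linear_combination e1 + e2 + e3)
  have e1 := hv _ (mem_hemi_of_lt h01 (single_mem_hemi i0)).1
  have e2 := hv _ (mem_hemi_of_lt h01 (single_mem_hemi i0)).2
  simp only [neg_neg] at e1 e2
  exact ⟨_, (single_mem_hemi i0).1, by linear_combination e1 - e2⟩

end Hemi

end Pool.Agent.Work.MP_653b6e_gt.Hedge
end

-- merged part: Pool.Agent.Work.MP_653b6e_gt.Hedge.Cocycle
section
/-! There is no equivariant map from a sphere of dimension at least three to the suspension of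
the double telescope. -/

namespace Pool.Agent.Work.MP_653b6e_gt.Hedge

open Set

theorem exists_sign {E : Type} [NormedAddCommGroup E] [NormedSpace ℝ E] (f : E → ℝ)
    (hf : ∀ y, ‖y‖ = 1 → f (-y) = -f y) :
    ∃ χ : E → ℤ, (∀ y, ‖y‖ = 1 → χ (-y) = 1 - χ y) ∧
      ∀ y, (χ y = 1 ∧ 0 ≤ f y) ∨ (χ y = 0 ∧ f y ≤ 0) := by
  classical
  let P : E → Prop := fun y => 0 < f y ∨ (f y = 0 ∧ WellOrderingRel y (-y))
  refine ⟨fun y => if P y then 1 else 0, fun y hy => ?_, fun y => ?_⟩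
  · have hne : y ≠ -y := by
      intro h
      have h2 : (2 : ℝ) • y = 0 := by
        rw [two_smul]
        exact add_eq_zero_iff_eq_neg.2 h
      rw [smul_eq_zero, or_iff_right two_ne_zero] at h2
      rw [h2, norm_zero] at hy
      exact zero_ne_one hy
    have key : P (-y) ↔ ¬ P y := by
      simp only [P, hf y hy, neg_neg]
      constructor
      · rintro (h | ⟨h, h'⟩) (g | ⟨g, g'⟩)
        · linarith
        · linarith
        · linarith
        · exact asymm h' g'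
      · intro h
        rw [not_or, not_lt, not_and] at h
        rcases h.1.lt_or_eq with g | g
        · exact Or.inl (by linarith)
        · refine Or.inr ⟨by linarith, ?_⟩
          rcases trichotomous_of WellOrderingRel y (-y) with k | k | k
          · exact absurd k (h.2 g)
          · exact absurd k hne
          · exact k
    by_cases h : P y <;> simp [key, h]
  · by_cases h : P y
    · exact Or.inl ⟨if_pos h, h.elim le_of_lt fun g => g.1.ge⟩
    · exact Or.inr ⟨if_neg h, not_lt.1 fun g => h (Or.inl g)⟩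

theorem sign_change {E : Type} {f : E → ℝ} {χ : E → ℤ}
    (h : ∀ y, (χ y = 1 ∧ 0 ≤ f y) ∨ (χ y = 0 ∧ f y ≤ 0)) {x y : E} (hxy : χ x ≠ χ y) :
    |f y| ≤ |f x - f y| ∧ (χ y - χ x = 1 ∨ χ y - χ x = -1) := by
  rcases h x with ⟨a, b⟩ | ⟨a, b⟩ <;> rcases h y with ⟨c, d⟩ | ⟨c, d⟩
  · exact absurd (a.trans c.symm) hxy
  · refine ⟨?_, Or.inr (by rw [a, c]; rfl)⟩
    rw [abs_of_nonpos d, abs_of_nonneg (by linarith)]
    linarith
  · refine ⟨?_, Or.inl (by rw [a, c]; rfl)⟩
    rw [abs_of_nonneg d, abs_of_nonpos (by linarith)]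
    linarith
  · exact absurd (a.trans c.symm) hxy

theorem int_eq_of_abs_lt {a b : ℤ} (h : |(a : ℝ) - b| < 1) : a = b := by
  have : |a - b| < 1 := by exact_mod_cast h
  have := Int.abs_lt_one_iff.1 this
  omega

theorem dist_coe (a b : ℝ) :
    dist (a : UnitAddCircle) (b : UnitAddCircle) = |b - a - round (b - a)| := by
  rw [dist_comm, dist_eq_norm, ← AddCircle.coe_sub, UnitAddCircle.norm_eq]

theorem unif {E Z : Type} [PseudoMetricSpace E] [PseudoMetricSpace Z] {K : Set E}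
    (hK : IsCompact K) {f : E → Z} (hf : ContinuousOn f K) {ε : ℝ} (hε : 0 < ε) :
    ∃ δ > 0, ∀ x ∈ K, ∀ y ∈ K, dist x y < δ → dist (f x) (f y) < ε :=
  Metric.uniformContinuousOn_iff.1 (hK.uniformContinuousOn_of_continuous hf) ε hε

theorem no_equiv {m : ℕ} (hm : 4 ≤ m) (G : EuclideanSpace ℝ (Fin m) → SP TT)
    (hG : ContinuousOn G {y | ‖y‖ = 1})
    (hs : ∀ y, ‖y‖ = 1 → G (-y) = suspSwap (X := dblTel) telSwap (G y)) : False := by
  classical
  have hS : IsCompact {y : EuclideanSpace ℝ (Fin m) | ‖y‖ = 1} := by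
    have h := isCompact_sphere (0 : EuclideanSpace ℝ (Fin m)) 1
    rwa [show Metric.sphere (0 : EuclideanSpace ℝ (Fin m)) 1 = {y | ‖y‖ = 1} from
      Set.ext fun _ => mem_sphere_zero_iff_norm] at h
  set h : EuclideanSpace ℝ (Fin m) → ℝ := fun y => hh (G y) with hdef
  have hodd : ∀ y, ‖y‖ = 1 → h (-y) = -h y := fun y hy => by
    simp only [hdef, hs y hy]
    exact hh_swap (X := dblTel) telSwap (G y)
  have hhc : ContinuousOn h {y | ‖y‖ = 1} := continuous_hh.comp_continuousOn hG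
  let K : Set (EuclideanSpace ℝ (Fin m)) := {y | ‖y‖ = 1} ∩ h ⁻¹' {r | |r| ≤ 1 / 2}
  have hK : IsCompact K := hS.of_isClosed_subset (hhc.preimage_isClosed_of_isClosed hS.isClosed
    (isClosed_le continuous_abs continuous_const)) inter_subset_left
  have hKW : MapsTo G K (Wd TT) := fun y hy =>
    lt_of_le_of_lt (show |hh (G y)| ≤ 1 / 2 from hy.2) (by norm_num)
  have hKn : ∀ y ∈ K, -y ∈ K := fun y hy => ⟨by simpa using hy.1, by
    change |h (-y)| ≤ 1 / 2
    rw [hodd y hy.1, abs_neg]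
    exact hy.2⟩
  set ξ : EuclideanSpace ℝ (Fin m) → TT := fun y => sx (G y) with hξ
  have hξc : ContinuousOn ξ K := continuousOn_sx.comp (hG.mono inter_subset_left) hKW
  have hξs : ∀ y ∈ K, ξ (-y) = telSwap (ξ y) := fun y hy => by
    simp only [hξ, hs y hy.1]
    exact sx_swap (X := dblTel) telSwap (hKW hy)
  set t : EuclideanSpace ℝ (Fin m) → ℝ := fun y => tt (ξ y) with ht
  have htc : ContinuousOn t K := continuous_tt.comp_continuousOn hξc
  have hts : ∀ y ∈ K, t (-y) = -t y := fun y hy => by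
    simp only [ht, hξs y hy]
    exact tt_swap _
  obtain ⟨N, hN⟩ : ∃ N : ℕ, ∀ y ∈ K, |t y| < N + 1 := by
    obtain ⟨C, hC⟩ := hK.exists_bound_of_continuousOn htc
    obtain ⟨N, hN⟩ := exists_nat_gt C
    exact ⟨N, fun y hy => lt_of_le_of_lt (hC y hy) (by linarith)⟩
  let K' : Set (EuclideanSpace ℝ (Fin m)) := K ∩ t ⁻¹' {r | |r| ≤ 1 / 2}
  have hK' : IsCompact K' := hK.of_isClosed_subset (htc.preimage_isClosed_of_isClosed hK.isClosed
    (isClosed_le continuous_abs continuous_const)) inter_subset_left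
  have hK0 : ∀ y ∈ K', |t y| < (0 : ℕ) + 1 := fun y hy => lt_of_le_of_lt hy.2 (by norm_num)
  obtain ⟨δ1, hδ1, u1⟩ := unif hS hhc (ε := 1 / 4) (by norm_num)
  obtain ⟨δ2, hδ2, u2⟩ := unif hK htc (ε := 1 / 4) (by norm_num)
  obtain ⟨δ3, hδ3, u3⟩ := unif hK ((continuousOn_ang N).comp hξc hN) (ε := 1 / 4) (by norm_num)
  obtain ⟨δ4, hδ4, u4⟩ := unif hK' ((continuousOn_ang 0).comp (hξc.mono inter_subset_left) hK0)
    (ε := 1 / (2 * 2 ^ N)) (by positivity)
  obtain ⟨χ, hχ, sχ⟩ := exists_sign h hodd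
  obtain ⟨ψ, hψ, sψ⟩ := exists_sign (fun y => t y - t (-y)) fun y _ => by simp
  let θ : EuclideanSpace ℝ (Fin m) → ℝ := fun y =>
    if χ y = 1 then th (ξ y) else th (ξ (-y)) + 1 / 2
  have hθ : ∀ y ∈ K, ξ y = tmk (θ y) (t y) := by
    intro y hy
    by_cases h1 : χ y = 1
    · simp only [θ, if_pos h1]
      exact (tmk_th _).symm
    · simp only [θ, if_neg h1]
      have h2 := hξs _ (hKn y hy)
      have h3 := hts _ (hKn y hy)
      rw [neg_neg] at h2 h3
      rw [h3, ← telSwap_tmk, h2]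
      exact congrArg telSwap (tmk_th _).symm
  have hθn : ∀ y, ‖y‖ = 1 → θ (-y) = θ y + χ y - 1 / 2 := by
    intro y hy
    have h1 := hχ y hy
    rcases sχ y with ⟨h2, -⟩ | ⟨h2, -⟩
    · have h3 : χ (-y) ≠ 1 := by omega
      simp only [θ, if_pos h2, if_neg h3, neg_neg]
      rw [h2]
      push_cast
      ring
    · have h3 : χ (-y) = 1 := by omega
      have h4 : χ y ≠ 1 := by omega
      simp only [θ, if_pos h3, if_neg h4]
      rw [h2]
      push_cast
      ring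
  let n : EuclideanSpace ℝ (Fin m) → EuclideanSpace ℝ (Fin m) → ℤ := fun x y =>
    round (2 ^ N * θ y - 2 ^ N * θ x)
  have hn1 : ∀ x ∈ K, ∀ y ∈ K, dist x y < δ3 → |2 ^ N * θ y - 2 ^ N * θ x - n x y| < 1 / 4 := by
    intro x hx y hy hxy
    have h1 := u3 x hx y hy hxy
    simp only [Function.comp_apply] at h1
    rwa [hθ x hx, hθ y hy, ang_tmk _ (hN x hx), ang_tmk _ (hN y hy), dist_coe] at h1
  have hn3 : ∀ x ∈ K', ∀ y ∈ K', dist x y < δ3 → dist x y < δ4 → ∃ j : ℤ, n x y = 2 ^ N * j := by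
    intro x hx y hy hxy hxy'
    have h1 := u4 x hx y hy hxy'
    simp only [Function.comp_apply] at h1
    rw [hθ x hx.1, hθ y hy.1, ang_tmk _ (hK0 x hx), ang_tmk _ (hK0 y hy), dist_coe, pow_zero,
      one_mul, one_mul, lt_div_iff₀ (by positivity)] at h1
    refine ⟨round (θ y - θ x), int_eq_of_abs_lt ?_⟩
    have h2 := abs_lt.1 (hn1 x hx.1 y hy.1 hxy)
    have h3 : |2 ^ N * (θ y - θ x - round (θ y - θ x))| < 1 / 2 := by
      rw [abs_mul, abs_of_pos (by positivity : (0 : ℝ) < 2 ^ N)]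
      linarith only [h1]
    have h4 := abs_lt.1 h3
    push_cast
    rw [abs_lt]
    constructor <;> linarith only [h2.1, h2.2, h4.1, h4.2]
  have hn4 : ∀ x y, ‖x‖ = 1 → ‖y‖ = 1 → n (-x) (-y) = n x y + 2 ^ N * (χ y - χ x) := by
    intro x y hx hy
    simp only [n]
    rw [← round_add_intCast, hθn x hx, hθn y hy]
    congr 1
    push_cast
    ring
  have hμ : (2 : ZMod (2 ^ (N + 1))) * 2 ^ N = 0 := by
    have h1 := ZMod.natCast_self (2 ^ (N + 1))
    rw [← pow_succ']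
    exact_mod_cast h1
  have hμ' : (2 : ZMod (2 ^ (N + 1))) ^ N ≠ 0 := by
    intro h1
    have h2 : ((2 ^ N : ℕ) : ZMod (2 ^ (N + 1))) = 0 := by exact_mod_cast h1
    have h3 := Nat.le_of_dvd (by positivity) ((ZMod.natCast_eq_zero_iff _ _).1 h2)
    have h4 : 2 ^ N < 2 ^ (N + 1) := Nat.pow_lt_pow_right (by norm_num) (Nat.lt_succ_self N)
    omega
  have hδ : 0 < min (min δ1 δ2) (min δ3 δ4) / 2 := by positivity
  obtain ⟨x, hx, hk⟩ := descent (A := ZMod (2 ^ (N + 1))) hm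
    (fun x y z => ((χ y : ZMod (2 ^ (N + 1))) - χ x) * ((2 * ψ y - 1) * n y z))
    (fun x y => -((χ y : ZMod (2 ^ (N + 1))) - χ x) * χ y * 2 ^ N) (fun x => χ x * 2 ^ N) hδ
    (fun x y z w hx hy hz hw hxy hxz hxw => by
      have tri : ∀ a b, dist x a < min (min δ1 δ2) (min δ3 δ4) / 2 →
          dist x b < min (min δ1 δ2) (min δ3 δ4) / 2 →
          (dist a b < δ1 ∧ dist a b < δ2) ∧ dist a b < δ3 ∧ dist a b < δ4 := fun a b ha hb => by
        have h1 : dist a b < min (min δ1 δ2) (min δ3 δ4) := by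
          linarith only [ha, hb, dist_triangle_left a b x]
        simpa only [lt_min_iff] using h1
      by_cases h1 : χ x = χ y
      · rw [h1]
        ring
      have h2 : |h y| < 1 / 4 := lt_of_le_of_lt (sign_change sχ h1).1
        (u1 x hx y hy (tri x y (by rwa [dist_self]) hxy).1.1)
      have mem : ∀ a, ‖a‖ = 1 → dist y a < δ1 → a ∈ K := fun a ha hya => ⟨ha, by
        have h3 := abs_lt.1 (u1 y hy a ha hya)
        have h4 := abs_lt.1 h2
        change |h a| ≤ 1 / 2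
        rw [abs_le]
        constructor <;> linarith only [h3.1, h3.2, h4.1, h4.2]⟩
      have hyK := mem y hy (by rwa [dist_self])
      have hzK := mem z hz (tri y z hxy hxz).1.1
      have hwK := mem w hw (tri y w hxy hxw).1.1
      have h3 : n y w = n y z + n z w := by
        have a1 := abs_lt.1 (hn1 y hyK z hzK (tri y z hxy hxz).2.1)
        have a2 := abs_lt.1 (hn1 z hzK w hwK (tri z w hxz hxw).2.1)
        have a3 := abs_lt.1 (hn1 y hyK w hwK (tri y w hxy hxw).2.1)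
        refine int_eq_of_abs_lt ?_
        push_cast
        rw [abs_lt]
        constructor <;> linarith only [a1.1, a1.2, a2.1, a2.2, a3.1, a3.2]
      by_cases h4 : ψ y = ψ z
      · rw [h3, h4]
        push_cast
        ring
      have h5 : |t z| < 1 / 4 := by
        have a1 := (sign_change sψ h4).1
        have a2 : |t y - t z| < 1 / 4 := u2 y hyK z hzK (tri y z hxy hxz).1.2
        simp only [hts y hyK, hts z hzK] at a1
        rw [show t z - -t z = 2 * t z by ring, show t y - -t y - 2 * t z = 2 * (t y - t z) by ring,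
          abs_mul, abs_mul, abs_two] at a1
        linarith only [a1, a2]
      have hzK' : z ∈ K' := ⟨hzK, h5.le.trans (by norm_num)⟩
      have hwK' : w ∈ K' := ⟨hwK, by
        have a1 := abs_lt.1 (u2 z hzK w hwK (tri z w hxz hxw).1.2)
        have a2 := abs_lt.1 h5
        change |t w| ≤ 1 / 2
        rw [abs_le]
        constructor <;> linarith only [a1.1, a1.2, a2.1, a2.2]⟩
      obtain ⟨j, hj⟩ := hn3 z hzK' w hwK' (tri z w hxz hxw).2.1 (tri z w hxz hxw).2.2
      rw [h3, hj]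
      push_cast
      linear_combination (-((χ y : ZMod (2 ^ (N + 1))) - χ x) * (ψ z - ψ y) * j) * hμ)
    (fun x y z hx hy hz => by
      rw [hχ x hx, hχ y hy, hψ y hy, hn4 y z hy hz]
      push_cast
      linear_combination (-((χ y : ZMod (2 ^ (N + 1))) - χ x) * (χ z - χ y) * ψ y) * hμ)
    (fun x y hx hy => by
      rw [hχ x hx, hχ y hy]
      push_cast
      linear_combination (-((χ y : ZMod (2 ^ (N + 1))) - χ x) * χ y) * hμ)
  rw [hχ x hx] at hk
  push_cast at hk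
  exact hμ' (by linear_combination (χ x : ZMod (2 ^ (N + 1))) * hμ - hk)

theorem coind_le_two : coind (susp dblTel) (suspSwap telSwap) ≤ 2 := by
  classical
  refine sSup_le ?_
  rintro _ ⟨m, rfl, f, hf⟩
  have hm : m ≤ 3 := by
    by_contra hm
    refine no_equiv (m := m) (by omega) (fun y => if h : ‖y‖ = 1 then
      f ⟨y, mem_sphere_zero_iff_norm.2 h⟩ else smk (tmk 0 0) 0) ?_ fun y hy => ?_
    · rw [continuousOn_iff_continuous_domRestrict]
      refine (f.continuous.comp (continuous_subtype_val.subtype_mk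
        fun y : {y : EuclideanSpace ℝ (Fin m) | ‖y‖ = 1} =>
          mem_sphere_zero_iff_norm.2 y.2)).congr fun y => ?_
      have hy : ‖y.1‖ = 1 := y.2
      simp only [Set.domRestrict_apply, dif_pos hy]
      rfl
    · rw [dif_pos hy, dif_pos ((norm_neg y).trans hy)]
      exact hf ⟨y, mem_sphere_zero_iff_norm.2 hy⟩
  have h : (m : ℝ) - 1 ≤ 2 := by
    have : (m : ℝ) ≤ 3 := by exact_mod_cast hm
    linarith
  exact EReal.coe_le_coe_iff.2 h

end Pool.Agent.Work.MP_653b6e_gt.Hedge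
end

-- merged part: Pool.Agent.Work.MP_653b6e_gt.Hedge.Main
section
/-! The suspension of the double telescope has coindex at most two and mod 2 connectivity at
least two. -/

namespace Pool.Agent.Work.MP_653b6e_gt.Hedge

open Set Pool.Agent.Work.MP_735653_gt.SingG CategoryTheory Limits

theorem Cn_cover (y : SP TT) : y ∈ Cn TT 1 ∨ y ∈ Cn TT (-1) := by
  by_contra h
  rw [not_or] at h
  have h1 : hh y = -1 := not_not.1 h.1
  have h2 : hh y = - -1 := not_not.1 h.2
  linarith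

theorem Cn_inter : Cn TT 1 ∩ Cn TT (-1) = Wd TT := by
  ext y
  have h := hh_mem y
  change hh y ≠ -1 ∧ hh y ≠ - -1 ↔ |hh y| < 1
  rw [neg_neg, abs_lt]
  exact ⟨fun g => ⟨lt_of_le_of_ne h.1 g.1.symm, lt_of_le_of_ne h.2 g.2⟩,
    fun g => ⟨g.1.ne', g.2.ne⟩⟩

theorem isPathConnected_Wd : IsPathConnected (Wd TT) := by
  have h : qq '' PP = Wd TT :=
    Subset.antisymm qq_maps.image_subset fun y hy => ⟨_, hy, qq_surj y⟩
  rw [← h]
  exact (convex_PP.isPathConnected ⟨0, zero_mem_PP⟩).image qq.continuous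

theorem vanishes (i : ℤ) (hi : i ≤ 2) : ReducedHomologyVanishes (susp dblTel) i := by
  have : Nonempty TT := ⟨tmk 0 0⟩
  have := contractible_Cn (X := TT) (Or.inl rfl)
  have := contractible_Cn (X := TT) (Or.inr rfl)
  rcases i with (_ | _ | _ | n) | (_ | n)
  · have : PathConnectedSpace (susp dblTel) :=
      Function.Surjective.pathConnectedSpace (f := qq) (fun y => ⟨_, qq_surj y⟩) qq.continuous
    exact isZero_kernel_of_mono _
  · refine isZero_of_exact (Y := SP TT) 0 fun z hz h0 => mayer_vietoris _ _ (isOpen_Cn 1)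
      (isOpen_Cn (-1)) Cn_cover 0 (fun a ha h => ?_) hz h0
    rw [Cn_inter] at h ⊢
    exact bounds_zero _ _ isPathConnected_Wd ha h
  · refine isZero_of_exact (Y := SP TT) 1 fun z hz h0 => mayer_vietoris _ _ (isOpen_Cn 1)
      (isOpen_Cn (-1)) Cn_cover 1 (fun a _ h => ?_) hz h0
    rw [Cn_inter] at h ⊢
    exact bounds_one h (sbd_sbd a)
  · exfalso
    simp only [Int.ofNat_eq_natCast] at hi
    omega
  · exact ⟨smk (tmk 0 0) 0⟩
  · trivial

theorem two_le_conn : 2 ≤ connZ2 (susp dblTel) :=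
  le_sSup ⟨2, rfl, vanishes⟩

theorem coind_lt : coind (susp dblTel) (suspSwap telSwap) < connZ2 (susp dblTel) + 1 := by
  refine lt_of_le_of_lt coind_le_two (lt_of_lt_of_le ?_ (add_le_add_left two_le_conn 1))
  change ((2 : ℝ) : EReal) < ((2 : ℝ) : EReal) + ((1 : ℝ) : EReal)
  rw [← EReal.coe_add, EReal.coe_lt_coe_iff]
  norm_num

theorem t2_TT : T2Space TT := by
  refine ⟨fun x y hxy => ?_⟩
  by_cases h : tt x = tt y
  · have h1 : |tt x| < (⌊|tt x|⌋₊ : ℕ) + 1 := Nat.lt_floor_add_one _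
    have h2 : ang ⌊|tt x|⌋₊ x ≠ ang ⌊|tt x|⌋₊ y := by
      intro h3
      obtain ⟨k, hk⟩ := coe_eq_iff_int.1 h3
      refine hxy ?_
      rw [← tmk_th x, ← tmk_th y]
      exact tmk_eq_iff.2 ⟨h, k, by rw [← hk, mul_sub]⟩
    obtain ⟨u, v, hu, hv, hxu, hyv, huv⟩ := t2_separation h2
    have ho : IsOpen {z | |tt z| < (⌊|tt x|⌋₊ : ℕ) + 1} :=
      isOpen_lt continuous_tt.abs continuous_const
    exact ⟨_, _, (continuousOn_ang _).isOpen_inter_preimage ho hu,
      (continuousOn_ang _).isOpen_inter_preimage ho hv, ⟨h1, hxu⟩, ⟨h ▸ h1, hyv⟩,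
      (huv.preimage _).mono inter_subset_right inter_subset_right⟩
  · exact separated_by_continuous continuous_tt h

theorem locallyCompact_TT : LocallyCompactSpace TT := by
  have := t2_TT
  have : WeaklyLocallyCompactSpace TT := by
    refine ⟨fun x => ⟨_, ((isCompact_Icc (a := (0 : ℝ)) (b := 1)).prod
      (isCompact_Icc (a := tt x - 1) (b := tt x + 1))).image continuous_tmk, ?_⟩⟩
    refine Filter.mem_of_superset (continuous_tt.continuousAt.preimage_mem_nhds
      (Icc_mem_nhds (sub_one_lt (tt x)) (lt_add_one (tt x)))) fun y hy => ?_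
    refine ⟨(Int.fract (th y), tt y), ⟨⟨Int.fract_nonneg _, (Int.fract_lt_one _).le⟩, hy⟩, ?_⟩
    refine (tmk_eq_of (Nat.zero_le _) ⟨-⌊th y⌋, ?_⟩).trans (tmk_th y)
    rw [pow_zero, one_mul, Int.fract]
    push_cast
    ring
  infer_instance

theorem pathConnected_TT : PathConnectedSpace TT :=
  Function.Surjective.pathConnectedSpace (f := fun p : ℝ × ℝ => tmk p.1 p.2)
    (fun x => ⟨(th x, tt x), tmk_th x⟩) continuous_tmk

end Pool.Agent.Work.MP_653b6e_gt.Hedge
end
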